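import Pool.Agent.W5h32.CO.Tay
import Pool.Agent.W5h32.PT.Sm

/-!
# Torus actions whose orbit space is an interval
-/

set_option autoImplicit false
set_option linter.unusedSectionVars false

open scoped Manifold ContDiff Topology
open Filter Set Metric

universe u

namespace Pool.Agent.W5h32.CO

open Pool.Agent.H718R2.G Pool.Agent.Y318.MN Pool.Agent.W5h32.PT Pool.Agent.W564.SC
  Pool.Agent.TH80.CLX

/-- Normal coordinates for a torus action `a` whose orbit space is an interval: an invariant smooth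
function `p` with values in `[0, 1]` which separates the orbits and takes the values `0` and `1`,
where it has a nonzero Hessian, and a smooth flow `b` which commutes with the action and satisfies
the logistic equation `d/ds p (b s x) = p (b s x) (1 - p (b s x))`, that is,
`p (b s x) = exp s * p x / (1 - p x + exp s * p x)`. -/
structure IsInterval (n : ℕ) {k : ℕ} {N : Type u} [TopologicalSpace N] [ChartedSpace (V n) N]
    (a : (Fin k → ℝ) → N → N) (p : N → ℝ) (b : ℝ → N → N) : Prop where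
  p_smooth : ContMDiff (𝓡 n) 𝓘(ℝ, ℝ) ∞ p
  p_mem : ∀ x, p x ∈ Icc (0 : ℝ) 1
  p_orbit : ∀ x y, p x = p y ↔ ∃ t, y = a t x
  b_smooth : ContMDiff (𝓘(ℝ, ℝ).prod (𝓡 n)) (𝓡 n) ∞ fun q : ℝ × N => b q.1 q.2
  b_zero : ∀ x, b 0 x = x
  b_add : ∀ s t x, b (s + t) x = b s (b t x)
  b_comm : ∀ s t x, b s (a t x) = a t (b s x)
  b_p : ∀ s x, p (b s x) = Real.exp s * p x / (1 - p x + Real.exp s * p x)
  hess0 : ∃ γ : ℝ → N, ContMDiff 𝓘(ℝ, ℝ) (𝓡 n) ∞ γ ∧ p (γ 0) = 0 ∧
    deriv (deriv fun τ => p (γ τ)) 0 ≠ 0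
  hess1 : ∃ γ : ℝ → N, ContMDiff 𝓘(ℝ, ℝ) (𝓡 n) ∞ γ ∧ p (γ 0) = 1 ∧
    deriv (deriv fun τ => p (γ τ)) 0 ≠ 0

/-- the logistic function -/
noncomputable def sg (s : ℝ) : ℝ := Real.exp s / (1 + Real.exp s)

theorem sg_pos (s : ℝ) : 0 < sg s := by
  unfold sg
  positivity

theorem sg_lt (s : ℝ) : sg s < 1 := by
  unfold sg
  rw [div_lt_one (by positivity)]
  linarith

theorem one_sub_sg (s : ℝ) : 1 - sg s = sg (-s) := by
  unfold sg
  rw [Real.exp_neg]
  have := Real.exp_pos s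
  field_simp
  ring

theorem sg_eq (s : ℝ) : sg s = 1 / (1 + Real.exp (-s)) := by
  unfold sg
  rw [Real.exp_neg]
  have := Real.exp_pos s
  field_simp
  ring

theorem sg_mono : StrictMono sg := by
  intro s t h
  rw [sg_eq, sg_eq]
  have h1 : Real.exp (-t) < Real.exp (-s) := Real.exp_lt_exp.2 (by linarith)
  have h2 := Real.exp_pos (-t)
  exact one_div_lt_one_div_of_lt (by positivity) (by linarith)

theorem sg_cont : Continuous sg := by
  unfold sg
  refine Real.continuous_exp.div (continuous_const.add Real.continuous_exp) fun s => ?_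
  have := Real.exp_pos s
  positivity

theorem sg_bot : Tendsto sg atBot (𝓝 0) := by
  have h1 : Tendsto (fun s => Real.exp s / (1 + Real.exp s)) atBot (𝓝 (0 / (1 + 0))) :=
    Real.tendsto_exp_atBot.div (tendsto_const_nhds.add Real.tendsto_exp_atBot) (by norm_num)
  have e : (0 : ℝ) / (1 + 0) = 0 := by norm_num
  rw [e] at h1
  exact h1

theorem sg_top : Tendsto sg atTop (𝓝 1) := by
  have h1 : Tendsto (fun s => 1 - sg (-s)) atTop (𝓝 (1 - 0)) :=
    tendsto_const_nhds.sub (sg_bot.comp tendsto_neg_atTop_atBot)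
  rw [sub_zero] at h1
  refine h1.congr fun s => ?_
  rw [← one_sub_sg]
  ring

/-- the inverse of the logistic function -/
noncomputable def lg (y : ℝ) : ℝ := Real.log (y / (1 - y))

theorem exp_lg {y : ℝ} (h0 : 0 < y) (h1 : y < 1) : Real.exp (lg y) = y / (1 - y) := by
  have : 0 < 1 - y := by linarith
  unfold lg
  rw [Real.exp_log (by positivity)]

theorem sg_lg {y : ℝ} (h0 : 0 < y) (h1 : y < 1) : sg (lg y) = y := by
  have : 0 < 1 - y := by linarith
  unfold sg
  rw [exp_lg h0 h1]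
  field_simp
  ring

theorem lg_sg (s : ℝ) : lg (sg s) = s := sg_mono.injective (sg_lg (sg_pos s) (sg_lt s))

section

variable {n k : ℕ} {N : Type u} [TopologicalSpace N] [T2Space N] [ChartedSpace (V n) N]
  [IsManifold (𝓡 n) ∞ N] {a : (Fin k → ℝ) → N → N} {p : N → ℝ} {b : ℝ → N → N}
  (H : IsInterval n a p b)

include H in
theorem p_inv (t : Fin k → ℝ) (x : N) : p (a t x) = p x :=
  ((H.p_orbit x (a t x)).2 ⟨t, rfl⟩).symm

include H in
/-- reversing the interval -/
theorem dual : IsInterval n a (fun x => 1 - p x) (fun s => b (-s)) where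
  p_smooth := contMDiff_const.sub H.p_smooth
  p_mem x := ⟨by linarith [(H.p_mem x).2], by linarith [(H.p_mem x).1]⟩
  p_orbit x y := by
    rw [← H.p_orbit]
    constructor <;> intro h <;> linarith
  b_smooth := by
    have h1 : ContMDiff (𝓘(ℝ, ℝ).prod (𝓡 n)) (𝓘(ℝ, ℝ).prod (𝓡 n)) ∞
        (fun q : ℝ × N => (-q.1, q.2)) := by
      refine ContMDiff.prodMk ?_ contMDiff_snd
      exact (contDiff_neg (n := ∞)).contMDiff.comp contMDiff_fst
    exact H.b_smooth.comp h1
  b_zero x := by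
    rw [neg_zero, H.b_zero]
  b_add s t x := by
    rw [neg_add, H.b_add]
  b_comm s t x := H.b_comm _ _ _
  b_p s x := by
    rw [H.b_p, Real.exp_neg]
    have h0 := (H.p_mem x).1
    have h1 := (H.p_mem x).2
    have h2 := Real.exp_pos s
    have h3 : 0 < 1 - p x + (Real.exp s)⁻¹ * p x := by
      rcases h0.eq_or_lt with h | h
      · rw [← h]; norm_num
      · have : 0 ≤ 1 - p x := by linarith
        positivity
    have h4 : 0 < 1 - (1 - p x) + Real.exp s * (1 - p x) := by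
      have e : 1 - (1 - p x) + Real.exp s * (1 - p x) =
        Real.exp s * (1 - p x + (Real.exp s)⁻¹ * p x) := by
        field_simp
        ring
      rw [e]
      positivity
    rw [eq_div_iff h4.ne', one_sub_div h3.ne', div_mul_eq_mul_div, div_eq_iff h3.ne']
    field_simp
    ring
  hess0 := by
    obtain ⟨γ, h1, h2, h3⟩ := H.hess1
    refine ⟨γ, h1, by rw [h2, sub_self], ?_⟩
    have e : deriv (fun τ => 1 - p (γ τ)) = fun τ => - deriv (fun τ => p (γ τ)) τ := by
      funext τ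
      rw [deriv_const_sub]
    rw [e, deriv.fun_neg]
    exact neg_ne_zero.2 h3
  hess1 := by
    obtain ⟨γ, h1, h2, h3⟩ := H.hess0
    refine ⟨γ, h1, by rw [h2, sub_zero], ?_⟩
    have e : deriv (fun τ => 1 - p (γ τ)) = fun τ => - deriv (fun τ => p (γ τ)) τ := by
      funext τ
      rw [deriv_const_sub]
    rw [e, deriv.fun_neg]
    exact neg_ne_zero.2 h3

include H in
theorem p_flow {x₀ : N} (hx₀ : p x₀ = 1 / 2) (s : ℝ) : p (b s x₀) = sg s := by
  rw [H.b_p, hx₀, sg]
  have := Real.exp_pos s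
  field_simp
  ring

include H in
/-- the second order limit of `p` at a zero, in the direction of a given curve -/
theorem end_curve : ∃ γ : ℝ → N, ContMDiff 𝓘(ℝ, ℝ) (𝓡 n) ∞ γ ∧ p (γ 0) = 0 ∧
    ∃ κ : ℝ, 0 < κ ∧ Tendsto (fun τ : ℝ => p (γ τ) / τ ^ 2) (𝓝[≠] 0) (𝓝 κ) := by
  obtain ⟨γ, h1, h2, h3⟩ := H.hess0
  refine ⟨γ, h1, h2, ?_⟩
  obtain ⟨κ, hκ⟩ := quad_limit H.p_smooth (fun x => (H.p_mem x).1)
    (h1.contMDiffAt.of_le (by exact_mod_cast le_top)) h2
  have hu : ContDiff ℝ ∞ (fun τ => p (γ τ)) := (H.p_smooth.comp h1).contDiff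
  have h4 := quad_value hu h2 (fun τ => (H.p_mem _).1) hκ
  refine ⟨κ, lt_of_le_of_ne ?_ ?_, hκ⟩
  · refine ge_of_tendsto hκ (Filter.Eventually.of_forall fun τ => ?_)
    have := (H.p_mem (γ τ)).1
    positivity
  · rw [h4]
    intro h5
    apply h3
    linarith

include H in
theorem exists_mid : ∃ x₀ : N, p x₀ = 1 / 2 := by
  obtain ⟨γ, h1, h2, κ, hκ0, hκ⟩ := end_curve H
  have h3 : ∀ᶠ τ : ℝ in 𝓝[≠] 0, 0 < p (γ τ) := by
    filter_upwards [hκ.eventually_const_lt hκ0, self_mem_nhdsWithin] with τ h4 h5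
    have hτ : τ ≠ 0 := h5
    have : 0 < τ ^ 2 := by positivity
    by_contra hcon
    have : p (γ τ) / τ ^ 2 ≤ 0 := div_nonpos_of_nonpos_of_nonneg (not_lt.1 hcon) this.le
    linarith
  have h4 : ∀ᶠ τ : ℝ in 𝓝[≠] 0, p (γ τ) < 1 := by
    have : Tendsto (fun τ => p (γ τ)) (𝓝 0) (𝓝 (p (γ 0))) :=
      (H.p_smooth.continuous.comp h1.continuous).tendsto 0
    rw [h2] at this
    exact (this.eventually_lt_const (by norm_num)).filter_mono nhdsWithin_le_nhds
  obtain ⟨τ, h5, h6⟩ := (h3.and h4).exists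
  refine ⟨b (-(lg (p (γ τ)))) (γ τ), ?_⟩
  rw [H.b_p, Real.exp_neg, exp_lg h5 h6]
  have : 0 < 1 - p (γ τ) := by linarith
  field_simp
  ring

/-- the diffeomorphism `b s` -/
noncomputable def flowD (H : IsInterval n a p b) (r : ℕ∞) (s : ℝ) : DiffM n N r where
  toFun := b s
  invFun := b (-s)
  left_inv x := by
    show b (-s) (b s x) = x
    rw [← H.b_add, neg_add_cancel, H.b_zero]
  right_inv x := by
    show b s (b (-s) x) = x
    rw [← H.b_add, add_neg_cancel, H.b_zero]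
  contMDiff_toFun := by
    have : ContMDiff (𝓡 n) (𝓡 n) ∞ (b s) := H.b_smooth.comp (contMDiff_const.prodMk contMDiff_id)
    exact this.of_le (by exact_mod_cast le_top)
  contMDiff_invFun := by
    have : ContMDiff (𝓡 n) (𝓡 n) ∞ (b (-s)) :=
      H.b_smooth.comp (contMDiff_const.prodMk contMDiff_id)
    exact this.of_le (by exact_mod_cast le_top)

/-- the diffeomorphism `b s ∘ F` -/
noncomputable def pushD (H : IsInterval n a p b) {r : ℕ∞} (F : DiffM n N r) (s : ℝ) : DiffM n N r :=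
  F.trans (flowD H r s)

theorem pushD_apply {r : ℕ∞} (F : DiffM n N r) (s : ℝ) (x : N) :
    pushD H F s x = b s (F x) := rfl

/-- small pushes of `F` stay in a neighbourhood of `F` -/
theorem push_mem [CompactSpace N] {r : ℕ∞} (hr : 1 ≤ r)
    (F : DiffM n N r) (U : Set (DiffM n N r)) (hU : IsOpen[strongTop n N r] U) (hFU : F ∈ U) :
    ∃ κ : ℝ, 0 < κ ∧ ∀ s : ℝ, |s| < κ → pushD H F s ∈ U := by
  have h0 : pushD H F 0 = F := by
    ext y
    rw [pushD_apply, H.b_zero]
  have hfam : IsFam n N r (pushD H F) := by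
    intro y
    have hr : (r : WithTop ℕ∞) ≤ ∞ := by exact_mod_cast le_top
    have h1 : ContMDiff (𝓘(ℝ, ℝ).prod (𝓡 n)) (𝓘(ℝ, ℝ).prod (𝓡 n)) r
        (fun q : ℝ × N => (q.1, F q.2)) :=
      contMDiff_fst.prodMk (F.contMDiff.comp contMDiff_snd)
    exact ((H.b_smooth.of_le hr).comp h1).contMDiffAt
  obtain ⟨z, -⟩ := exists_mid H
  exact fam_mem r hr (pushD H F) hfam z U hU (by rwa [h0])

end

end Pool.Agent.W5h32.CO
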