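import Pool.Agent.W5h32.PT.Om

/-!
# Maps which permute the level sets of a function monotonically
-/

set_option autoImplicit false
set_option linter.unusedSectionVars false

open Set Filter Topology MeasureTheory

namespace Pool.Agent.W5h32.CO

open Pool.Agent.W5h32.PT

open Pool.Agent.H728R2.FA (omegaLim FiniteAttractors)

variable {X : Type*} [TopologicalSpace X] [CompactSpace X] [T2Space X]

/-- a bounded sequence which is monotone or antitone converges -/
theorem conv_of_step {p : X → ℝ} (hp : Continuous p) {h : X → X}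
    (hm : ∀ x y, p x ≤ p y → p (h x) ≤ p (h y)) (x : X) :
    ∃ c, Tendsto (fun n => p (h^[n] x)) atTop (𝓝 c) := by
  have hb1 : BddAbove (range fun n => p (h^[n] x)) := by
    obtain ⟨B, hB⟩ := (isCompact_univ (X := X)).bddAbove_image hp.continuousOn
    refine ⟨B, ?_⟩
    rintro _ ⟨n, rfl⟩
    exact hB (mem_image_of_mem _ (mem_univ _))
  have hb2 : BddBelow (range fun n => p (h^[n] x)) := by
    obtain ⟨B, hB⟩ := (isCompact_univ (X := X)).bddBelow_image hp.continuousOn
    refine ⟨B, ?_⟩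
    rintro _ ⟨n, rfl⟩
    exact hB (mem_image_of_mem _ (mem_univ _))
  rcases le_total (p x) (p (h x)) with h1 | h1
  · have hmono : Monotone fun n => p (h^[n] x) := by
      refine monotone_nat_of_le_succ fun n => ?_
      induction n with
      | zero => exact h1
      | succ n ih =>
        have e1 : h^[n + 1 + 1] x = h (h^[n + 1] x) := Function.iterate_succ_apply' _ _ _
        have e2 : h^[n + 1] x = h (h^[n] x) := Function.iterate_succ_apply' _ _ _
        rw [e1]
        conv_lhs => rw [e2]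
        exact hm _ _ ih
    exact ⟨_, tendsto_atTop_ciSup hmono hb1⟩
  · have hanti : Antitone fun n => p (h^[n] x) := by
      refine antitone_nat_of_succ_le fun n => ?_
      induction n with
      | zero => exact h1
      | succ n ih =>
        have e1 : h^[n + 1 + 1] x = h (h^[n + 1] x) := Function.iterate_succ_apply' _ _ _
        have e2 : h^[n + 1] x = h (h^[n] x) := Function.iterate_succ_apply' _ _ _
        rw [e1]
        conv_rhs => rw [e2]
        exact hm _ _ ih
    exact ⟨_, tendsto_atTop_ciInf hanti hb2⟩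

omit [CompactSpace X] [T2Space X] in
theorem cluster_eq {u : ℕ → X} {y : X} (hy : MapClusterPt y atTop u) {q : X → ℝ}
    (hq : Continuous q) {c : ℝ} (hc : Tendsto (fun n => q (u n)) atTop (𝓝 c)) : q y = c := by
  obtain ⟨U, hU, hUy⟩ := mapClusterPt_iff_ultrafilter.1 hy
  exact tendsto_nhds_unique ((hq.tendsto y).comp hUy) (hc.mono_left hU)

variable {k : ℕ} {a : (Fin k → ℝ) → X → X} (ha : IsAct a) {p : X → ℝ} (hp : Continuous p)
  (hpo : ∀ x y, p x = p y ↔ ∃ t, y = a t x) {g : X → X} (hg : Continuous g)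
  {A : Matrix (Fin k) (Fin k) ℤ} (hF : ∀ t x, g (a t x) = a (rmul A t) (g x))
  (hm : ∀ x y, p x ≤ p y → p (g (g x)) ≤ p (g (g y)))

include hpo hF in
theorem lev_g {x y : X} (h : p x = p y) : p (g x) = p (g y) := by
  obtain ⟨t, rfl⟩ := (hpo _ _).1 h
  exact (hpo _ _).2 ⟨_, hF t x⟩

/-- the points of one or two level sets which are exchanged by `g` -/
def Lev (p : X → ℝ) (g : X → X) (x : X) : Set X := {z | p z = p x ∨ p z = p (g x)}

include hp hpo hg hF hm in
/-- an `ω`-limit set is contained in a level set or in two of them, which are fixed or exchanged -/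
theorem omega_lev (x : X) :
    ∃ y, p (g (g y)) = p y ∧ omegaLim g x ⊆ Lev p g y := by
  set h : X → X := fun z => g (g z) with hh
  obtain ⟨c, hc⟩ := conv_of_step hp hm x
  obtain ⟨c', hc'⟩ := conv_of_step hp hm (g x)
  -- a limit point of the even subsequence
  obtain ⟨y, -, hy⟩ := (isCompact_univ (X := X)).exists_mapClusterPt
    (f := atTop) (u := fun n : ℕ => h^[n] x) (by simp)
  have hhc : Continuous h := hg.comp hg
  have e1 : p y = c := cluster_eq hy hp hc
  have e2 : p (h y) = c := by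
    refine cluster_eq hy (q := fun z => p (h z)) (hp.comp hhc) ?_
    refine (hc.comp (tendsto_add_atTop_nat 1)).congr fun n => ?_
    show p (h^[n + 1] x) = p (h (h^[n] x))
    rw [Function.iterate_succ_apply']
  have hgh : ∀ n, g (h^[n] x) = h^[n] (g x) := by
    intro n
    induction n with
    | zero => rfl
    | succ n ih =>
      rw [Function.iterate_succ_apply', Function.iterate_succ_apply', ← ih]
  have e3 : p (g y) = c' := by
    refine cluster_eq hy (q := fun z => p (g z)) (hp.comp hg) ?_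
    refine hc'.congr fun n => ?_
    show p (h^[n] (g x)) = p (g (h^[n] x))
    rw [hgh]
  refine ⟨y, by rw [e1]; exact e2, fun z hz => ?_⟩
  rw [Lev, mem_setOf_eq, e1, e3]
  by_contra hcon
  rw [not_or] at hcon
  have heven : ∀ n, g^[2 * n] x = h^[n] x := by
    intro n
    rw [Function.iterate_mul]
    rfl
  have hodd : ∀ n, g^[2 * n + 1] x = h^[n] (g x) := by
    intro n
    rw [Function.iterate_succ_apply, Function.iterate_mul]
    rfl
  -- a neighbourhood of `p z` which is left by both subsequences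
  obtain ⟨u, v, hu, hv, hzu, hcv, huv⟩ := t2_separation hcon.1
  obtain ⟨u', v', hu', hv', hzu', hcv', huv'⟩ := t2_separation hcon.2
  obtain ⟨N₁, hN₁⟩ := Filter.eventually_atTop.1 (hc.eventually_mem (hv.mem_nhds hcv))
  obtain ⟨N₂, hN₂⟩ := Filter.eventually_atTop.1 (hc'.eventually_mem (hv'.mem_nhds hcv'))
  obtain ⟨n, hn, hnz⟩ := hz (p ⁻¹' (u ∩ u')) (((hu.inter hu').preimage hp).mem_nhds ⟨hzu, hzu'⟩)
    (2 * (N₁ + N₂) + 1)
  rcases Nat.even_or_odd' n with ⟨j, rfl | rfl⟩
  · rw [heven] at hnz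
    exact Set.disjoint_left.1 huv hnz.1 (hN₁ j (by omega))
  · rw [hodd] at hnz
    exact Set.disjoint_left.1 huv' hnz.2 (hN₂ j (by omega))

include hpo hF in
theorem lev_image (hsurj : ∀ t, ∃ s, rmul A s = t) {x : X}
    (hx : p (g (g x)) = p x) : g '' Lev p g x = Lev p g x := by
  ext y
  constructor
  · rintro ⟨z, hz | hz, rfl⟩
    · exact Or.inr (lev_g hpo hF hz)
    · exact Or.inl ((lev_g hpo hF hz).trans hx)
  · rintro (hy | hy)
    · obtain ⟨t, ht⟩ := (hpo _ _).1 (hx.trans hy.symm)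
      obtain ⟨s, rfl⟩ := hsurj t
      refine ⟨a s (g x), Or.inr ((hpo _ _).2 ⟨s, rfl⟩).symm, ?_⟩
      rw [hF, ← ht]
    · obtain ⟨t, ht⟩ := (hpo _ _).1 hy.symm
      obtain ⟨s, rfl⟩ := hsurj t
      refine ⟨a s x, Or.inl ((hpo _ _).2 ⟨s, rfl⟩).symm, ?_⟩
      rw [hF, ← ht]

include hpo in
theorem lev_trans (x : X) : TransMod a g (Lev p g x) := by
  refine ⟨x, Or.inl rfl, fun y hy => subset_closure ?_⟩
  rcases hy with hy | hy
  · obtain ⟨t, ht⟩ := (hpo _ _).1 hy.symm
    exact ⟨t, 0, ht⟩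
  · obtain ⟨t, ht⟩ := (hpo _ _).1 hy.symm
    exact ⟨t, 1, ht⟩

include hpo in
theorem lev_inv (x : X) : Inv a (Lev p g x) := by
  intro t y hy
  have h1 : p (a t y) = p y := ((hpo y (a t y)).2 ⟨t, rfl⟩).symm
  rcases hy with hy | hy
  · exact Or.inl (h1.trans hy)
  · exact Or.inr (h1.trans hy)

theorem lev_closed (hp : Continuous p) (x : X) : IsClosed (Lev p g x) :=
  (isClosed_eq hp continuous_const).union (isClosed_eq hp continuous_const)

include hpo hF in
theorem lev_congr {x y : X} (h : p x = p y) : Lev p g x = Lev p g y := by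
  unfold Lev
  rw [h, lev_g hpo hF h]

/-- **Finitely many periodic levels.** -/
theorem lev_cover [SecondCountableTopology X] (ha : IsAct a) (hp : Continuous p)
    (hpo : ∀ x y, p x = p y ↔ ∃ t, y = a t x) (hg : Continuous g)
    (hF : ∀ t x, g (a t x) = a (rmul A t) (g x))
    (hdet : A.det ≠ 0) (hA : ∀ m, 1 ≤ m → (psum A m).det ≠ 0) (hsurj : ∀ t, ∃ s, rmul A s = t)
    (hm : ∀ x y, p x ≤ p y → p (g (g x)) ≤ p (g (g y)))
    (hfin : {c | ∃ x, p x = c ∧ p (g (g x)) = c}.Finite) :
    ∀ᶠ θ in residual (Fin k → ℝ), (∃ S : Set X, S.Finite ∧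
        (∀ y ∈ S, rot a g θ '' Lev p g y = Lev p g y ∧
          ∃ z ∈ Lev p g y, Lev p g y ⊆ closure (range fun j : ℕ => (rot a g θ)^[j] z)) ∧
        ∀ x, ∃ y ∈ S, omegaLim (rot a g θ) x ⊆ Lev p g y) ∧
      ∀ (_ : MeasurableSpace X) (μ : Measure X), FiniteAttractors μ (rot a g θ) := by
  obtain ⟨m, f, -, hf⟩ := hfin.fin_param
  have h1 : ∀ i : Fin m, ∃ x, p x = f i ∧ p (g (g x)) = f i := fun i => by
    have : f i ∈ range f := mem_range_self i
    rw [hf] at this
    exact this
  choose y hy1 hy2 using h1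
  have hy : ∀ i, p (g (g (y i))) = p (y i) := fun i => by rw [hy1, hy2]
  have hcov : ∀ x, ∃ i, omegaLim g x ⊆ Lev p g (y i) := by
    intro x
    obtain ⟨z, hz1, hz2⟩ := omega_lev hp hpo hg hF hm x
    have h2 : p z ∈ {c | ∃ x, p x = c ∧ p (g (g x)) = c} := ⟨z, rfl, hz1⟩
    rw [← hf] at h2
    obtain ⟨i, hi⟩ := h2
    refine ⟨i, ?_⟩
    rw [lev_congr hpo hF (show p (y i) = p z by rw [hy1, hi])]
    exact hz2
  have h3 : ∀ᶠ θ in residual (Fin k → ℝ), ∀ i : Fin m, ∃ z ∈ Lev p g (y i),
      Lev p g (y i) ⊆ closure (range fun j : ℕ => (rot a g θ)^[j] z) :=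
    eventually_countable_forall.2 fun i => (trans_generic ha hF hdet hA (lev_closed hp _)
      (lev_inv hpo _) (lev_image hpo hF hsurj (hy i)) hg (lev_trans hpo _)).1
  filter_upwards [h3] with θ hθ
  have him : ∀ i, rot a g θ '' Lev p g (y i) = Lev p g (y i) := fun i =>
    rot_image ha (lev_inv hpo _) (lev_image hpo hF hsurj (hy i)) θ
  have hcov' : ∀ x, ∃ i, omegaLim (rot a g θ) x ⊆ Lev p g (y i) := fun x => by
    obtain ⟨i, hi⟩ := hcov x
    exact ⟨i, omega_rot ha hF (lev_inv hpo _) θ x hi⟩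
  refine ⟨⟨range y, finite_range y, ?_, fun x => ?_⟩, fun _ μ => finite_of_cover μ _ _ him hθ hcov'⟩
  · rintro _ ⟨i, rfl⟩
    exact ⟨him i, hθ i⟩
  · obtain ⟨i, hi⟩ := hcov' x
    exact ⟨_, mem_range_self i, hi⟩

end Pool.Agent.W5h32.CO
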