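import Pool.Agent.W5h32.CO.Lim

/-!
# Diffeomorphisms which normalise a torus action with orbit space an interval
-/

set_option autoImplicit false
set_option linter.unusedSectionVars false

open scoped Manifold ContDiff Topology
open Filter Set Metric MeasureTheory

universe u

namespace Pool.Agent.W5h32.CO

open Pool.Agent.H718R2.G Pool.Agent.Y318.MN Pool.Agent.W5h32.PT Pool.Agent.W564.SC
  Pool.Agent.TH80.CLX

open Pool.Agent.H728R2.FA (omegaLim FiniteAttractors)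

section orb

variable {n k : ℕ} {N : Type u} [TopologicalSpace N] [T2Space N] [ChartedSpace (V n) N]
  [IsManifold (𝓡 n) ∞ N] {a : (Fin k → ℝ) → N → N} {p : N → ℝ} {b : ℝ → N → N}
  (H : IsInterval n a p b) {A : Matrix (Fin k) (Fin k) ℤ}

include H in
/-- a normalising injective map permutes the orbits -/
theorem orb_iff {F : N → N} (hF : ∀ t x, F (a t x) = a (rmul A t) (F x)) (hdet : A.det ≠ 0)
    (hinj : Function.Injective F) (x y : N) : p (F x) = p (F y) ↔ p x = p y := by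
  constructor
  · intro h
    obtain ⟨t, ht⟩ := (H.p_orbit _ _).1 h
    obtain ⟨s, rfl⟩ := rmul_surj hdet t
    rw [← hF] at ht
    rw [hinj ht, p_inv H]
  · intro h
    obtain ⟨t, rfl⟩ := (H.p_orbit _ _).1 h
    rw [hF, p_inv H]

theorem logistic_mono {σ y z : ℝ} (hy : y ∈ Icc (0 : ℝ) 1) (hz : z ∈ Icc (0 : ℝ) 1) (h : y ≤ z) :
    Real.exp σ * y / (1 - y + Real.exp σ * y) ≤ Real.exp σ * z / (1 - z + Real.exp σ * z) := by
  have he := Real.exp_pos σ
  have h1 : ∀ w ∈ Icc (0 : ℝ) 1, 0 < 1 - w + Real.exp σ * w := by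
    intro w hw
    rcases hw.1.eq_or_lt with h | h
    · rw [← h]; norm_num
    · have : 0 ≤ 1 - w := by linarith [hw.2]
      positivity
  rw [div_le_div_iff₀ (h1 y hy) (h1 z hz)]
  nlinarith

theorem logistic_sg (σ u : ℝ) :
    Real.exp σ * sg u / (1 - sg u + Real.exp σ * sg u) = sg (u + σ) := by
  have h1 := Real.exp_pos u
  have h2 := Real.exp_pos σ
  have e : 1 - sg u + Real.exp σ * sg u = (1 + Real.exp u * Real.exp σ) / (1 + Real.exp u) := by
    unfold sg
    field_simp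
    ring
  rw [e]
  unfold sg
  rw [Real.exp_add]
  field_simp

include H in
theorem flow_mono (σ : ℝ) {x y : N} (h : p x ≤ p y) : p (b σ x) ≤ p (b σ y) := by
  rw [H.b_p, H.b_p]
  exact logistic_mono (H.p_mem _) (H.p_mem _) h

end orb

section main

variable {n k : ℕ} {N : Type u} [TopologicalSpace N] [T2Space N] [ChartedSpace (V n) N]
  [IsManifold (𝓡 n) ∞ N] {a : (Fin k → ℝ) → N → N} {p : N → ℝ} {b : ℝ → N → N}
  (H : IsInterval n a p b) {r : ℕ∞} (hr : 1 ≤ r) (F : DiffM n N r)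
  (hO : ∀ x y, p (F x) = p (F y) ↔ p x = p y) (h0 : ∀ x, p x = 0 → p (F x) = 0)
  (h1 : ∀ x, p x = 1 → p (F x) = 1) {x₀ : N} (hx₀ : p x₀ = 1 / 2)

include H hO h0 h1 in
theorem int_F {x : N} (hx : p x ∈ Ioo (0 : ℝ) 1) : p (F x) ∈ Ioo (0 : ℝ) 1 := by
  obtain ⟨γ, -, hγ, -⟩ := H.hess0
  obtain ⟨γ', -, hγ', -⟩ := H.hess1
  have m := H.p_mem (F x)
  refine ⟨lt_of_le_of_ne m.1 fun h => ?_, lt_of_le_of_ne m.2 fun h => ?_⟩
  · have : p (F (γ 0)) = p (F x) := by rw [h0 _ hγ, ← h]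
    rw [hO, hγ] at this
    exact hx.1.ne this
  · have : p (F (γ' 0)) = p (F x) := by rw [h1 _ hγ', h]
    rw [hO, hγ'] at this
    exact hx.2.ne this.symm

/-- the induced map of the line -/
noncomputable def vv (p : N → ℝ) (b : ℝ → N → N) (F : N → N) (x₀ : N) (s : ℝ) : ℝ := p (F (b s x₀))

include H hO h0 h1 hx₀ in
theorem vv_mem (s : ℝ) : vv p b F x₀ s ∈ Ioo (0 : ℝ) 1 :=
  int_F H F hO h0 h1 (by rw [p_flow H hx₀]; exact ⟨sg_pos s, sg_lt s⟩)

include H hr in
theorem vv_diff : Differentiable ℝ (vv p b F x₀) := by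
  have hr' : (1 : WithTop ℕ∞) ≤ r := by exact_mod_cast hr
  have h1 : ContMDiff 𝓘(ℝ, ℝ) (𝓡 n) 1 (fun s => b s x₀) :=
    (H.b_smooth.comp (contMDiff_id.prodMk contMDiff_const)).of_le (by exact_mod_cast le_top)
  have h2 : ContMDiff 𝓘(ℝ, ℝ) 𝓘(ℝ, ℝ) 1 (vv p b F x₀) :=
    (H.p_smooth.of_le (by exact_mod_cast le_top)).comp ((F.contMDiff.of_le hr').comp h1)
  exact h2.contDiff.differentiable (by norm_num)

include H hO hx₀ in
theorem vv_inj : Function.Injective (vv p b F x₀) := by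
  intro s t h
  have h2 : p (F (b s x₀)) = p (F (b t x₀)) := h
  rw [hO, p_flow H hx₀, p_flow H hx₀] at h2
  exact sg_mono.injective h2

include H hr hO h0 hx₀ in
theorem vv_bot : Tendsto (vv p b F x₀) atBot (𝓝 0) := by
  obtain ⟨l, hl⟩ := end_limit H hr F hO h0 hx₀
  have := hl.mul sg_bot
  rw [mul_zero] at this
  refine this.congr fun s => ?_
  rw [div_mul_cancel₀ _ (sg_pos s).ne']
  rfl

include H hr hO h0 h1 hx₀ in
theorem vv_mono : StrictMono (vv p b F x₀) := by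
  rcases (vv_diff H hr F).continuous.strictMono_of_inj (vv_inj H F hO hx₀) with h | h
  · exact h
  · exfalso
    have h2 := (vv_bot H hr F hO h0 hx₀).eventually_lt_const (vv_mem H F hO h0 h1 hx₀ 0).1
    obtain ⟨s, hs1, hs2⟩ := (h2.and (Filter.eventually_lt_atBot 0)).exists
    exact absurd (h hs2) (not_lt.2 hs1.le)

/-- the displacement -/
noncomputable def dd (p : N → ℝ) (b : ℝ → N → N) (F : N → N) (x₀ : N) (s : ℝ) : ℝ :=
  lg (vv p b F x₀ s) - s

include H hr hO h0 h1 hx₀ in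
theorem dd_diff : Differentiable ℝ (dd p b F x₀) := by
  intro s
  have hv := vv_mem H F hO h0 h1 hx₀ s
  have h2 : 1 - vv p b F x₀ s ≠ 0 := by linarith [hv.2]
  have hd := vv_diff H hr F (x₀ := x₀) s
  unfold dd lg
  exact ((hd.div ((differentiableAt_const 1).sub hd) h2).log
    (div_ne_zero hv.1.ne' h2)).sub differentiableAt_id

include H hO h0 h1 hx₀ in
theorem exp_dd (s : ℝ) : Real.exp (dd p b F x₀ s) =
    vv p b F x₀ s / sg s * ((1 - sg s) / (1 - vv p b F x₀ s)) := by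
  have hv := vv_mem H F hO h0 h1 hx₀ s
  have h2 : 1 - vv p b F x₀ s ≠ 0 := by linarith [hv.2]
  unfold dd
  rw [Real.exp_sub, exp_lg hv.1 hv.2, one_sub_sg]
  unfold sg
  rw [Real.exp_neg]
  have := Real.exp_pos s
  field_simp
  ring

include H hr hO h0 h1 hx₀ in
theorem exp_dd_bot : ∃ l, Tendsto (fun s => Real.exp (dd p b F x₀ s)) atBot (𝓝 l) := by
  obtain ⟨l, hl⟩ := end_limit H hr F hO h0 hx₀
  refine ⟨l * ((1 - 0) / (1 - 0)), ?_⟩
  refine (hl.mul ((tendsto_const_nhds.sub sg_bot).div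
    (tendsto_const_nhds.sub (vv_bot H hr F hO h0 hx₀)) (by norm_num))).congr fun s => ?_
  rw [exp_dd H F hO h0 h1 hx₀]
  rfl

include H hr hO h1 hx₀ in
theorem end_limit' : ∃ l : ℝ,
    Tendsto (fun s => (1 - vv p b F x₀ s) / (1 - sg s)) atTop (𝓝 l) := by
  obtain ⟨l, hl⟩ := end_limit (dual H) hr F (fun x y => by
    have := hO x y
    constructor <;> intro h
    · have h2 : p x = p y := this.1 (by linarith)
      rw [h2]
    · have h2 : p (F x) = p (F y) := this.2 (by linarith)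
      rw [h2]) (fun x hx => by
    have : p (F x) = 1 := h1 x (by linarith)
    rw [this, sub_self]) (x₀ := x₀) (by rw [hx₀]; norm_num)
  refine ⟨l, (hl.comp tendsto_neg_atTop_atBot).congr fun s => ?_⟩
  show (1 - p (F (b (- -s) x₀))) / sg (-s) = _
  rw [neg_neg, ← one_sub_sg]
  rfl

include H hr hO h0 h1 hx₀ in
theorem exp_dd_top : ∃ l, Tendsto (fun s => Real.exp (-dd p b F x₀ s)) atTop (𝓝 l) := by
  obtain ⟨l, hl⟩ := end_limit' H hr F hO h1 hx₀
  have hv : Tendsto (vv p b F x₀) atTop (𝓝 1) := by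
    have h2 := hl.mul (tendsto_const_nhds.sub sg_top : Tendsto (fun s => 1 - sg s) atTop (𝓝 (1 - 1)))
    rw [sub_self, mul_zero] at h2
    have h3 : Tendsto (fun s => 1 - (1 - vv p b F x₀ s)) atTop (𝓝 (1 - 0)) := by
      refine tendsto_const_nhds.sub (h2.congr fun s => ?_)
      have : 1 - sg s ≠ 0 := by linarith [sg_lt s]
      rw [div_mul_cancel₀ _ this]
    rw [sub_zero] at h3
    refine h3.congr fun s => ?_
    ring
  refine ⟨l * (1 / 1), ?_⟩
  refine (hl.mul (sg_top.div hv one_ne_zero)).congr fun s => ?_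
  have hm := vv_mem H F hO h0 h1 hx₀ s
  have e1 : 1 - vv p b F x₀ s ≠ 0 := by linarith [hm.2]
  have e2 : 1 - sg s ≠ 0 := by linarith [sg_lt s]
  have e3 := (sg_pos s).ne'
  have e4 := hm.1.ne'
  rw [Real.exp_neg, exp_dd H F hO h0 h1 hx₀]
  show (1 - vv p b F x₀ s) / (1 - sg s) * (sg s / vv p b F x₀ s) = _
  field_simp

include H hr hO h0 h1 hx₀ in
theorem F_mono {x y : N} (h : p x ≤ p y) : p (F x) ≤ p (F y) := by
  have mx := H.p_mem x
  have my := H.p_mem y
  rcases mx.1.eq_or_lt with h2 | h2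
  · rw [h0 x h2.symm]
    exact (H.p_mem _).1
  rcases my.2.eq_or_lt with h3 | h3
  · rw [h1 y h3]
    exact (H.p_mem _).2
  have hx1 : p x < 1 := h.trans_lt h3
  have hy0 : 0 < p y := h2.trans_le h
  have ex : p (F x) = vv p b F x₀ (lg (p x)) := by
    show p (F x) = p (F _)
    rw [hO, p_flow H hx₀, sg_lg h2 hx1]
  have ey : p (F y) = vv p b F x₀ (lg (p y)) := by
    show p (F y) = p (F _)
    rw [hO, p_flow H hx₀, sg_lg hy0 h3]
  rw [ex, ey]
  refine (vv_mono H hr F hO h0 h1 hx₀).monotone ?_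
  rw [← sg_mono.le_iff_le, sg_lg h2 hx1, sg_lg hy0 h3]
  exact h

include H hO h0 h1 hx₀ in
/-- the fixed orbits of `b σ ∘ F` -/
theorem fixed_iff (σ : ℝ) {x : N} (hx : p x ∈ Ioo (0 : ℝ) 1) :
    p (b σ (F x)) = p x ↔ dd p b F x₀ (lg (p x)) = -σ := by
  have ex : p (F x) = vv p b F x₀ (lg (p x)) := by
    show p (F x) = p (F _)
    rw [hO, p_flow H hx₀, sg_lg hx.1 hx.2]
  have hv := vv_mem H F hO h0 h1 hx₀ (lg (p x))
  rw [H.b_p, ex, ← sg_lg hv.1 hv.2, logistic_sg]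
  conv_lhs => rw [← sg_lg hx.1 hx.2, lg_sg]
  rw [sg_mono.injective.eq_iff]
  unfold dd
  constructor <;> intro h <;> linarith

end main

end Pool.Agent.W5h32.CO
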