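import Pool.Agent.W5h32.CO.Dat

/-!
# The induced map of the interval near its ends, and its fixed points
-/

set_option autoImplicit false
set_option linter.unusedSectionVars false

open scoped Manifold ContDiff Topology
open Filter Set Metric MeasureTheory

universe u

namespace Pool.Agent.W5h32.CO

open Pool.Agent.H718R2.G Pool.Agent.Y318.MN Pool.Agent.W5h32.PT Pool.Agent.W564.SC
  Pool.Agent.TH80.CLX

section

variable {n k : ℕ} {N : Type u} [TopologicalSpace N] [T2Space N] [ChartedSpace (V n) N]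
  [IsManifold (𝓡 n) ∞ N] {a : (Fin k → ℝ) → N → N} {p : N → ℝ} {b : ℝ → N → N}
  (H : IsInterval n a p b) {r : ℕ∞} (hr : 1 ≤ r) (F : DiffM n N r)
  (hO : ∀ x y, p (F x) = p (F y) ↔ p x = p y) (h0 : ∀ x, p x = 0 → p (F x) = 0)

include H hr hO h0 in
/-- the ratio `p (F x) / p x` has a limit at the end `p = 0` of the interval -/
theorem end_limit {x₀ : N} (hx₀ : p x₀ = 1 / 2) :
    ∃ l : ℝ, Tendsto (fun s => p (F (b s x₀)) / sg s) atBot (𝓝 l) := by
  obtain ⟨γ, h1, h2, κ, hκ0, hκ⟩ := end_curve H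
  have hr' : (1 : WithTop ℕ∞) ≤ r := by exact_mod_cast hr
  have hFγ : ContMDiffAt 𝓘(ℝ, ℝ) (𝓡 n) 1 (fun τ => F (γ τ)) 0 :=
    ((F.contMDiff.of_le hr').comp (h1.of_le (by exact_mod_cast le_top))).contMDiffAt
  obtain ⟨κ', hκ'⟩ := quad_limit H.p_smooth (fun x => (H.p_mem x).1) hFγ (h0 _ h2)
  have hlim : Tendsto (fun τ : ℝ => p (F (γ τ)) / p (γ τ)) (𝓝[≠] 0) (𝓝 (κ' / κ)) := by
    refine (hκ'.div hκ hκ0.ne').congr' ?_
    filter_upwards [self_mem_nhdsWithin] with τ hτ
    have hτ' : τ ≠ 0 := hτ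
    have hτ2 : τ ^ 2 ≠ 0 := by positivity
    show p (F (γ τ)) / τ ^ 2 / (p (γ τ) / τ ^ 2) = p (F (γ τ)) / p (γ τ)
    rw [div_div_div_cancel_right₀ hτ2]
  have hpos : ∀ᶠ τ : ℝ in 𝓝[≠] 0, 0 < p (γ τ) := by
    filter_upwards [hκ.eventually_const_lt hκ0, self_mem_nhdsWithin] with τ h4 h5
    have hτ : τ ≠ 0 := h5
    have : 0 < τ ^ 2 := by positivity
    by_contra hcon
    have : p (γ τ) / τ ^ 2 ≤ 0 := div_nonpos_of_nonpos_of_nonneg (not_lt.1 hcon) this.le
    linarith
  refine ⟨κ' / κ, ?_⟩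
  rw [tendsto_def]
  intro W hW
  have h3 := (hlim.eventually_mem hW).and hpos
  rw [eventually_nhdsWithin_iff] at h3
  obtain ⟨δ, hδ, hδ1⟩ := Metric.eventually_nhds_iff.1 h3
  have hδ2 : (p (F (γ (δ / 2))) / p (γ (δ / 2)) ∈ W) ∧ 0 < p (γ (δ / 2)) :=
    hδ1 (by rw [dist_zero_right, Real.norm_eq_abs, abs_of_pos (by positivity)]; linarith)
      (by simp [hδ.ne'])
  filter_upwards [sg_bot.eventually_lt_const hδ2.2] with s hs
  have hc : ContinuousOn (fun τ => p (γ τ)) (Icc 0 (δ / 2)) :=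
    (H.p_smooth.continuous.comp h1.continuous).continuousOn
  obtain ⟨τ, hτ, hτs⟩ := intermediate_value_Ioo (by positivity) hc
    ⟨by show p (γ 0) < sg s; rw [h2]; exact sg_pos s, hs⟩
  have hτs' : p (γ τ) = sg s := hτs
  have h4 := (hδ1 (y := τ) (by
    rw [dist_zero_right, Real.norm_eq_abs, abs_of_pos hτ.1]
    linarith [hτ.2]) (by simp [hτ.1.ne'])).1
  show p (F (b s x₀)) / sg s ∈ W
  have e : p (F (b s x₀)) = p (F (γ τ)) := by
    rw [hO, p_flow H hx₀, hτs']
  rw [e, ← hτs']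
  exact h4

end

/-- the critical values of a differentiable function form a null set -/
theorem crit_null {D D' : ℝ → ℝ} (hD : ∀ s, HasDerivAt D (D' s) s) :
    volume (D '' {s | D' s = 0}) = 0 := by
  refine MeasureTheory.addHaar_image_eq_zero_of_det_fderivWithin_eq_zero volume
    (f' := fun s => ContinuousLinearMap.toSpanSingleton ℝ (D' s)) (fun s _ => ?_) fun s hs => ?_
  · exact (hD s).hasFDerivAt.hasFDerivWithinAt
  · have hs' : D' s = 0 := hs
    rw [hs']
    simp

/-- a level set of a differentiable function is finite if it is bounded and consists of regular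
points -/
theorem level_finite {D D' : ℝ → ℝ} (hD : ∀ s, HasDerivAt D (D' s) s) {c R : ℝ}
    (hR : ∀ s, D s = c → |s| ≤ R) (hc : ∀ s, D s = c → D' s ≠ 0) : {s | D s = c}.Finite := by
  by_contra hinf
  have hcont : Continuous D := continuous_iff_continuousAt.2 fun s => (hD s).continuousAt
  have hsub : {s | D s = c} ⊆ Icc (-R) R := fun s hs => abs_le.1 (hR s hs)
  obtain ⟨x, -, hx⟩ := Set.Infinite.exists_accPt_of_subset_isCompact hinf isCompact_Icc hsub
  have hxc : D x = c := by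
    have hcl : IsClosed {s | D s = c} := isClosed_eq hcont continuous_const
    have h3 : x ∈ closure {s | D s = c} := mem_closure_iff_clusterPt.2 hx.clusterPt
    rw [hcl.closure_eq] at h3
    exact h3
  have h1 := (hD x).eventually_ne (c := c) (hc x hxc)
  rw [accPt_iff_frequently_nhdsNE] at hx
  obtain ⟨y, hy1, hy2⟩ := (hx.and_eventually h1).exists
  exact hy2 hy1

/-- **Sard's argument on the line.** If `exp (D s)` has a limit at `-∞` and `exp (-D s)` has a limit
at `+∞`, then there are arbitrarily small `σ` for which `D s = -σ` has finitely many solutions. -/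
theorem exists_shift {D : ℝ → ℝ} (hD : Differentiable ℝ D) {l l' : ℝ}
    (h1 : Tendsto (fun s => Real.exp (D s)) atBot (𝓝 l))
    (h2 : Tendsto (fun s => Real.exp (-D s)) atTop (𝓝 l')) {δ : ℝ} (hδ : 0 < δ) :
    ∃ σ, |σ| < δ ∧ {s | D s = -σ}.Finite := by
  set C := D '' {s | deriv D s = 0} with hC
  have hC0 : volume C = 0 := crit_null fun s => (hD s).hasDerivAt
  set S : Set ℝ := {σ | -σ ∈ C} ∪ ({-Real.log l} ∪ {Real.log l'}) with hS
  have hS0 : volume S = 0 := by
    rw [hS, measure_union_null_iff]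
    refine ⟨?_, ((finite_singleton _).union (finite_singleton _)).measure_zero _⟩
    have : {σ : ℝ | -σ ∈ C} = Neg.neg ⁻¹' C := rfl
    rw [this, Set.neg_preimage, Measure.measure_neg]
    exact hC0
  obtain ⟨σ, hσ, hσS⟩ : ∃ σ ∈ Ioo 0 δ, σ ∉ S := by
    by_contra hcon
    push Not at hcon
    have h3 : volume (Ioo 0 δ) ≤ volume S := measure_mono hcon
    rw [hS0, Real.volume_Ioo, sub_zero] at h3
    have := ENNReal.ofReal_pos.2 hδ
    exact absurd h3 (not_le.2 this)
  have hS1 : -σ ∉ C := fun h => hσS (Or.inl h)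
  have hS2 : σ ≠ -Real.log l := fun h => hσS (Or.inr (Or.inl h))
  have hS3 : σ ≠ Real.log l' := fun h => hσS (Or.inr (Or.inr h))
  refine ⟨σ, by rw [abs_of_pos hσ.1]; exact hσ.2, ?_⟩
  have hl : l ≠ Real.exp (-σ) := fun h => hS2 (by rw [h, Real.log_exp, neg_neg])
  have hl' : l' ≠ Real.exp σ := fun h => hS3 (by rw [h, Real.log_exp])
  obtain ⟨R₁, hR₁⟩ := Filter.eventually_atBot.1 (h1.eventually_ne hl)
  obtain ⟨R₂, hR₂⟩ := Filter.eventually_atTop.1 (h2.eventually_ne hl')
  refine level_finite (fun s => (hD s).hasDerivAt) (R := |R₁| + |R₂|) (fun s hs => ?_)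
    fun s hs h0 => hS1 ⟨s, h0, hs⟩
  rw [abs_le]
  constructor
  · by_contra hcon
    have : s ≤ R₁ := by
      have e1 := neg_abs_le R₁
      have e2 := abs_nonneg R₂
      linarith
    exact hR₁ s this (by rw [hs])
  · by_contra hcon
    have : R₂ ≤ s := by
      have e1 := le_abs_self R₂
      have e2 := abs_nonneg R₁
      linarith
    exact hR₂ s this (by rw [hs, neg_neg])

end Pool.Agent.W5h32.CO
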