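import Pool.Agent.W5h32.CO.Lim

/-!
# Decreasing maps of the line: finitely many points of period two after a small perturbation
-/

set_option autoImplicit false
set_option linter.unusedSectionVars false

open scoped Topology
open Filter Set Metric MeasureTheory

namespace Pool.Agent.W5h32.CO

theorem rev_finite {g : ℝ → ℝ} (hg : Differentiable ℝ g) (hanti : StrictAnti g) {z : ℝ}
    (hz : g z = z) (hd : deriv g z ^ 2 ≠ 1) {l l' : ℝ}
    (h1 : Tendsto (fun s => Real.exp (g (g s) - s)) atBot (𝓝 l))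
    (h2 : Tendsto (fun s => Real.exp (-(g (g s) - s))) atTop (𝓝 l')) :
    ∃ s₀ s₁, z < s₀ ∧ s₀ < s₁ ∧ ∀ χ : ℝ → ℝ, Continuous χ → (∀ s, 0 ≤ χ s) → (∀ s, χ s ≤ 1) →
      (∀ s, s ≤ s₀ → χ s = 0) → (∀ s, s₁ ≤ s → χ s = 1) → ∀ δ : ℝ, 0 < δ → ∃ σ : ℝ, |σ| < δ ∧
        {s | g (g (s + σ * χ s) + σ * χ (g (s + σ * χ s))) = s}.Finite := by
  have hgd := fun s => (hg s).hasDerivAt
  have hD : HasDerivAt (fun s => g (g s) - s) (deriv g z * deriv g z - 1) z := by
    have e1 : HasDerivAt g (deriv g z) (g z) := by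
      rw [hz]
      exact hgd z
    exact (e1.comp z (hgd z)).sub (hasDerivAt_id z)
  have hne := hD.eventually_ne (c := 0) (by
    intro h
    apply hd
    rw [sq]
    linarith)
  rw [eventually_nhdsWithin_iff] at hne
  obtain ⟨η, hη, hη1⟩ := Metric.eventually_nhds_iff.1 hne
  set s₁ := z + η / 2 with hs₁
  set s₀ := z + η / 4 with hs₀
  have hz0 : z < s₀ := by linarith
  have h01 : s₀ < s₁ := by linarith
  have hne' : ∀ s, z < s → s ≤ s₁ → g (g s) ≠ s := by
    intro s hs hs' he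
    refine hη1 (y := s) ?_ (by simp [hs.ne']) ?_
    · rw [Real.dist_eq, abs_of_pos (by linarith)]
      linarith
    · rw [he, sub_self]
  refine ⟨s₀, s₁, hz0, h01, fun χ hχ hχ0 hχ1 hχl hχr δ hδ => ?_⟩
  -- no points of period two in the transition interval
  have hk : Continuous fun q : ℝ × ℝ => g (g (q.2 + q.1 * χ q.2)) - q.2 := by
    have hgc := hg.continuous
    fun_prop
  have hopen : IsOpen {q : ℝ × ℝ | g (g (q.2 + q.1 * χ q.2)) - q.2 ≠ 0} :=
    isOpen_ne_fun hk continuous_const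
  obtain ⟨u, v, hu, -, hu0, hv, huv⟩ := generalized_tube_lemma (isCompact_singleton (x := (0 : ℝ)))
    (isCompact_Icc (a := s₀) (b := s₁)) hopen (by
      rintro ⟨σ, s⟩ ⟨hσ, hs⟩
      have hσ' : σ = 0 := hσ
      show g (g (s + σ * χ s)) - s ≠ 0
      rw [hσ', zero_mul, add_zero]
      intro h
      exact hne' s (hz0.trans_le hs.1) hs.2 (by linarith))
  obtain ⟨δ₁, hδ₁, hδ₁u⟩ := Metric.isOpen_iff.1 hu 0 (hu0 rfl)
  have hDd : Differentiable ℝ fun s => g (g s) - s := (hg.comp hg).sub differentiable_id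
  obtain ⟨σ, hσ, hfin⟩ := exists_shift hDd h1 h2
    (δ := min δ (min δ₁ (η / 8))) (lt_min hδ (lt_min hδ₁ (by positivity)))
  have hσδ : |σ| < δ := hσ.trans_le (min_le_left _ _)
  have hσδ₁ : |σ| < δ₁ := hσ.trans_le ((min_le_right _ _).trans (min_le_left _ _))
  have hση : |σ| < η / 8 := hσ.trans_le ((min_le_right _ _).trans (min_le_right _ _))
  refine ⟨σ, hσδ, ?_⟩
  set g₂ : ℝ → ℝ := fun s => g (s + σ * χ s) with hg₂
  have e2 : {s | g (g (s + σ * χ s) + σ * χ (g (s + σ * χ s))) = s} = {s | g₂ (g₂ s) = s} := rfl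
  rw [e2]
  -- the large points
  have hlarge : {s | g₂ (g₂ s) = s ∧ z < s} ⊆ (fun s => s - σ) '' {s | g (g s) - s = -σ} := by
    rintro s ⟨hs, hzs⟩
    have h3 : z < s + σ * χ s := by
      by_cases h : s ≤ s₀
      · rw [hχl s h, mul_zero, add_zero]
        exact hzs
      · rw [not_le] at h
        have h4 : |σ * χ s| ≤ |σ| := by
          rw [abs_mul, abs_of_nonneg (hχ0 s)]
          exact mul_le_of_le_one_right (abs_nonneg _) (hχ1 s)
        have h5 := (abs_le.1 h4).1
        linarith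
    have h4 : g₂ s < z := by
      have := hanti h3
      rw [hz] at this
      exact this
    have h5 : g₂ (g₂ s) = g (g₂ s) := by
      show g (g₂ s + σ * χ (g₂ s)) = g (g₂ s)
      rw [hχl _ (h4.le.trans hz0.le), mul_zero, add_zero]
    rw [h5] at hs
    have hs' : g (g (s + σ * χ s)) = s := hs
    rcases le_total s s₀ with h6 | h6
    · rw [hχl s h6, mul_zero, add_zero] at hs'
      exact absurd hs' (hne' s hzs (h6.trans h01.le))
    rcases le_total s s₁ with h7 | h7
    · exfalso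
      have h8 : ((σ, s) : ℝ × ℝ) ∈ u ×ˢ v := ⟨hδ₁u (by
        rw [mem_ball, dist_zero_right, Real.norm_eq_abs]; exact hσδ₁), hv ⟨h6, h7⟩⟩
      have h9 : g (g (s + σ * χ s)) - s ≠ 0 := huv h8
      exact h9 (by rw [hs', sub_self])
    · rw [hχr s h7, mul_one] at hs'
      refine ⟨s + σ, ?_, by simp⟩
      show g (g (s + σ)) - (s + σ) = -σ
      rw [hs']
      ring
  have hL : {s | g₂ (g₂ s) = s ∧ z < s}.Finite := (hfin.image _).subset hlarge
  refine ((hL.union (finite_singleton z)).union (hL.image g₂)).subset fun s hs => ?_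
  have hs' : g₂ (g₂ s) = s := hs
  rcases lt_trichotomy s z with h | h | h
  · refine Or.inr ⟨g₂ s, ⟨by rw [hs'], ?_⟩, hs'⟩
    show z < g (s + σ * χ s)
    rw [hχl s (h.le.trans hz0.le), mul_zero, add_zero]
    have := hanti h
    rwa [hz] at this
  · exact Or.inl (Or.inr h)
  · exact Or.inl (Or.inl ⟨hs', h⟩)

end Pool.Agent.W5h32.CO
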