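import Pool.Agent.W5h32.CO.Fix
import Pool.Agent.W5h32.CO.Dyn

/-!
# The case of diffeomorphisms which preserve the ends of the orbit space
-/

set_option autoImplicit false
set_option linter.unusedSectionVars false

open scoped Manifold ContDiff Topology
open Filter Set Metric MeasureTheory

universe u

namespace Pool.Agent.W5h32.CO

open Pool.Agent.H718R2.G Pool.Agent.Y318.MN Pool.Agent.W5h32.PT Pool.Agent.W564.SC
  Pool.Agent.TH80.CLX

open Pool.Agent.H728R2.FA (omegaLim FiniteAttractors)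

variable {n k : ℕ} {N : Type u} [TopologicalSpace N] [T2Space N] [ChartedSpace (V n) N]
  [IsManifold (𝓡 n) ∞ N] {a : (Fin k → ℝ) → N → N} {p : N → ℝ} {b : ℝ → N → N}
  (H : IsInterval n a p b) {r : ℕ∞}

section ends

variable (F : DiffM n N r) (hO : ∀ x y, p (F x) = p (F y) ↔ p x = p y)

include H hO in
theorem int_of_orb {x : N} (hx : p x ∈ Ioo (0 : ℝ) 1) : p (F x) ∈ Ioo (0 : ℝ) 1 := by
  obtain ⟨x₀, hx₀⟩ := exists_mid H
  have hb : Continuous fun s => b s x₀ :=
    H.b_smooth.continuous.comp (continuous_id.prodMk continuous_const)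
  have hv : Continuous (vv p b F x₀) := H.p_smooth.continuous.comp (F.continuous.comp hb)
  have ex : p (F x) = vv p b F x₀ (lg (p x)) := by
    show p (F x) = p (F _)
    rw [hO, p_flow H hx₀, sg_lg hx.1 hx.2]
  rw [ex]
  set s := lg (p x) with hs
  have m1 := H.p_mem (F (b (s - 1) x₀))
  have m2 := H.p_mem (F (b (s + 1) x₀))
  rcases hv.strictMono_of_inj (vv_inj H F hO hx₀) with h | h
  · have h2 := h (show s - 1 < s by linarith)
    have h3 := h (show s < s + 1 by linarith)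
    exact ⟨lt_of_le_of_lt m1.1 h2, lt_of_lt_of_le h3 m2.2⟩
  · have h2 := h (show s - 1 < s by linarith)
    have h3 := h (show s < s + 1 by linarith)
    exact ⟨lt_of_le_of_lt m2.1 h3, lt_of_lt_of_le h2 m1.2⟩

include H hO in
/-- the ends of the interval are preserved or exchanged -/
theorem ends : ((∀ x, p x = 0 → p (F x) = 0) ∧ ∀ x, p x = 1 → p (F x) = 1) ∨
    ((∀ x, p x = 0 → p (F x) = 1) ∧ ∀ x, p x = 1 → p (F x) = 0) := by
  have hO' : ∀ x y, p (F.symm x) = p (F.symm y) ↔ p x = p y := by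
    intro x y
    rw [← hO, F.apply_symm_apply, F.apply_symm_apply]
  have key : ∀ x, (p x = 0 ∨ p x = 1) → (p (F x) = 0 ∨ p (F x) = 1) := by
    intro x hx
    by_contra hcon
    rw [not_or] at hcon
    have h1 : p (F x) ∈ Ioo (0 : ℝ) 1 :=
      ⟨lt_of_le_of_ne (H.p_mem _).1 (Ne.symm hcon.1), lt_of_le_of_ne (H.p_mem _).2 hcon.2⟩
    have h2 := int_of_orb H F.symm hO' h1
    rw [F.symm_apply_apply] at h2
    rcases hx with h | h
    · exact h2.1.ne' h
    · exact h2.2.ne h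
  obtain ⟨γ, -, hγ, -⟩ := H.hess0
  obtain ⟨γ', -, hγ', -⟩ := H.hess1
  have hne : p (F (γ 0)) ≠ p (F (γ' 0)) := by
    intro h
    rw [hO, hγ, hγ'] at h
    norm_num at h
  have e0 : ∀ x, p x = 0 → p (F x) = p (F (γ 0)) := fun x hx => by rw [hO, hx, hγ]
  have e1 : ∀ x, p x = 1 → p (F x) = p (F (γ' 0)) := fun x hx => by rw [hO, hx, hγ']
  rcases key (γ 0) (Or.inl hγ) with h | h <;> rcases key (γ' 0) (Or.inr hγ') with h' | h'
  · exact absurd (h.trans h'.symm) hne
  · exact Or.inl ⟨fun x hx => (e0 x hx).trans h, fun x hx => (e1 x hx).trans h'⟩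
  · exact Or.inr ⟨fun x hx => (e0 x hx).trans h, fun x hx => (e1 x hx).trans h'⟩
  · exact absurd (h.trans h'.symm) hne

end ends

/-- The conclusion: `G` has finitely many attractors, for every measure; every `ω`-limit set is
contained in one of finitely many closed invariant transitive sets, each of which is an orbit of the
action `a` or the union of two orbits. -/
def Good (a : (Fin k → ℝ) → N → N) (G : N → N) : Prop :=
  (∃ S : Set N, S.Finite ∧
    (∀ y ∈ S, G '' {z | ∃ t, z = a t y ∨ z = a t (G y)} = {z | ∃ t, z = a t y ∨ z = a t (G y)} ∧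
      ∃ z ∈ {z | ∃ t, z = a t y ∨ z = a t (G y)},
        {z | ∃ t, z = a t y ∨ z = a t (G y)} ⊆ closure (range fun j : ℕ => G^[j] z)) ∧
    ∀ x, ∃ y ∈ S, omegaLim G x ⊆ {z | ∃ t, z = a t y ∨ z = a t (G y)}) ∧
  ∀ (_ : MeasurableSpace N) (μ : Measure N), FiniteAttractors μ G

section fin

variable [CompactSpace N] (ha : IsTorusAction n k N a) (hr : 1 ≤ r)
  {A : Matrix (Fin k) (Fin k) ℤ}
  (hdet : A.det ≠ 0) (hA : ∀ m, 1 ≤ m → (psum A m).det ≠ 0)

include H ha in
theorem lev_eq {G : N → N} {θ : Fin k → ℝ} (y : N) :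
    Lev p G y = {z | ∃ t, z = a t y ∨ z = a t (rot a G θ y)} := by
  ext z
  constructor
  · rintro (h | h)
    · obtain ⟨t, ht⟩ := (H.p_orbit _ _).1 h.symm
      exact ⟨t, Or.inl ht⟩
    · obtain ⟨t, ht⟩ := (H.p_orbit _ _).1 h.symm
      refine ⟨t - θ, Or.inr ?_⟩
      rw [rot, ← ha.add, sub_add_cancel]
      exact ht
  · rintro ⟨t, h | h⟩
    · exact Or.inl ((H.p_orbit _ _).2 ⟨t, h⟩).symm
    · refine Or.inr ((H.p_orbit _ _).2 ⟨t + θ, ?_⟩).symm
      rw [h, rot, ← ha.add]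

include H ha hr hdet hA in
/-- From finitely many periodic levels to the conclusion. -/
theorem good_near {G : DiffM n N r} (hG : ∀ t x, G (a t x) = a (rmul A t) (G x))
    (hm : ∀ x y, p x ≤ p y → p (G (G x)) ≤ p (G (G y)))
    (hfin : {c | ∃ x, p x = c ∧ p (G (G x)) = c}.Finite)
    (U : Set (DiffM n N r)) (hU : IsOpen[strongTop n N r] U) (hGU : G ∈ U) :
    ∃ G' ∈ U, (∀ t x, G' (a t x) = a (rmul A t) (G' x)) ∧ Good a G' := by
  haveI := secondCountable n N
  obtain ⟨κ, hκ, hκU⟩ := rot_mem ha hr G U hU hGU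
  obtain ⟨θ, hθ, h1, h2⟩ := residual_small (lev_cover ha.isAct H.p_smooth.continuous H.p_orbit
    G.continuous hG hdet hA (rmul_surj hdet) hm hfin) hκ
  refine ⟨rotD ha G θ, hκU θ hθ, fun t x => ?_, ?_, h2⟩
  · rw [rotD_apply, rotD_apply, hG, ← ha.add, ← ha.add, add_comm]
  · obtain ⟨S, hS, hS1, hS2⟩ := h1
    refine ⟨S, hS, fun y hy => ?_, fun x => ?_⟩
    · have := hS1 y hy
      rw [lev_eq H ha (θ := θ)] at this
      exact this
    · obtain ⟨y, hy, hxy⟩ := hS2 x
      rw [lev_eq H ha (θ := θ)] at hxy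
      exact ⟨y, hy, hxy⟩

end fin

section pre

variable [CompactSpace N] (ha : IsTorusAction n k N a) (hr : 1 ≤ r)
  {A : Matrix (Fin k) (Fin k) ℤ}
  (hdet : A.det ≠ 0) (hA : ∀ m, 1 ≤ m → (psum A m).det ≠ 0) (F : DiffM n N r)
  (hF : ∀ t x, F (a t x) = a (rmul A t) (F x))
  (h0 : ∀ x, p x = 0 → p (F x) = 0) (h1 : ∀ x, p x = 1 → p (F x) = 1)

include H ha hr hdet hA hF h0 h1 in
/-- the theorem for diffeomorphisms which preserve the ends -/
theorem good_pre (U : Set (DiffM n N r)) (hU : IsOpen[strongTop n N r] U) (hFU : F ∈ U) :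
    ∃ G ∈ U, (∀ t x, G (a t x) = a (rmul A t) (G x)) ∧ Good a G := by
  obtain ⟨x₀, hx₀⟩ := exists_mid H
  have hO := orb_iff H hF hdet F.injective
  obtain ⟨κ, hκ, hκU⟩ := push_mem H hr F U hU hFU
  obtain ⟨l, hl⟩ := exp_dd_bot H hr F hO h0 h1 hx₀
  obtain ⟨l', hl'⟩ := exp_dd_top H hr F hO h0 h1 hx₀
  obtain ⟨σ, hσ, hfin⟩ := exists_shift (dd_diff H hr F hO h0 h1 hx₀) hl hl' hκ
  have hmono : ∀ x y, p x ≤ p y → p (pushD H F σ x) ≤ p (pushD H F σ y) := fun x y h =>
    flow_mono H σ (F_mono H hr F hO h0 h1 hx₀ h)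
  refine good_near H ha hr hdet hA (G := pushD H F σ) (fun t x => ?_) (fun x y h => ?_) ?_ U hU
    (hκU σ hσ)
  · rw [pushD_apply, hF, H.b_comm, pushD_apply]
  · exact hmono _ _ (hmono _ _ h)
  · refine (((finite_singleton (0 : ℝ)).union (finite_singleton (1 : ℝ))).union
      (hfin.image sg)).subset ?_
    rintro c ⟨x, rfl, hx⟩
    have hfix : p (pushD H F σ x) = p x := by
      rcases lt_trichotomy (p x) (p (pushD H F σ x)) with h | h | h
      · have := hmono _ _ h.le
        rw [hx] at this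
        exact le_antisymm this h.le
      · exact h.symm
      · have := hmono _ _ h.le
        rw [hx] at this
        exact le_antisymm h.le this
    rcases (H.p_mem x).1.eq_or_lt with h | h
    · exact Or.inl (Or.inl h.symm)
    rcases (H.p_mem x).2.eq_or_lt with h' | h'
    · exact Or.inl (Or.inr h')
    · refine Or.inr ⟨lg (p x), ?_, sg_lg h h'⟩
      exact (fixed_iff H F hO h0 h1 hx₀ σ ⟨h, h'⟩).1 hfix

end pre

end Pool.Agent.W5h32.CO
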