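import Pool.Agent.W5h32.CO.Pre
import Pool.Agent.W5h32.CO.Line

/-!
# The case of diffeomorphisms which exchange the ends of the orbit space
-/

set_option autoImplicit false
set_option linter.unusedSectionVars false

open scoped Manifold ContDiff Topology
open Filter Set Metric MeasureTheory

universe u

namespace Pool.Agent.W5h32.CO

open Pool.Agent.H718R2.G Pool.Agent.Y318.MN Pool.Agent.W5h32.PT Pool.Agent.W564.SC
  Pool.Agent.TH80.CLX

open Pool.Agent.H728R2.FA (omegaLim FiniteAttractors)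

variable {n k : ℕ} {N : Type u} [TopologicalSpace N] [T2Space N] [CompactSpace N]
  [ChartedSpace (V n) N]
  [IsManifold (𝓡 n) ∞ N] {a : (Fin k → ℝ) → N → N} {p : N → ℝ} {b : ℝ → N → N}
  (H : IsInterval n a p b) {r : ℕ∞} (hr : 1 ≤ r)

include H hr in
/-- Small pushes with variable speed. -/
theorem var_push (G : DiffM n N r) {ρ : N → ℝ} (hρ : ContMDiff (𝓡 n) 𝓘(ℝ, ℝ) ∞ ρ)
    (U : Set (DiffM n N r)) (hU : IsOpen[strongTop n N r] U) (hGU : G ∈ U) :
    ∃ δ : ℝ, 0 < δ ∧ ∀ σ : ℝ, |σ| < δ → ∃ G' ∈ U, ∀ y, G' y = G (b (ρ y * σ) y) := by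
  set B : V 1 → N → N := fun s y => b (s 0) y with hB
  have hBs : ContMDiff ((𝓡 1).prod (𝓡 n)) (𝓡 n) ∞ (fun q : V 1 × N => B q.1 q.2) := by
    have h1 : ContMDiff ((𝓡 1).prod (𝓡 n)) (𝓘(ℝ, ℝ).prod (𝓡 n)) ∞
        (fun q : V 1 × N => ((q.1 0, q.2) : ℝ × N)) := by
      refine ContMDiff.prodMk ?_ contMDiff_snd
      have h2 : ContDiff ℝ ∞ (fun s : V 1 => s 0) := (EuclideanSpace.proj (𝕜 := ℝ) (0 : Fin 1)).contDiff
      exact h2.contMDiff.comp contMDiff_fst
    exact H.b_smooth.comp h1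
  obtain ⟨Hf, κ, hκ, hH0, hfam, hH⟩ := act_fam hBs hρ (fun y => H.b_zero y)
    (fun s t y => H.b_add (s 0) (t 0) y) r G
  obtain ⟨z, -⟩ := exists_mid H
  obtain ⟨κ', hκ', hκU⟩ := fam_mem r hr Hf hfam z U hU (by rwa [hH0])
  refine ⟨min κ κ', lt_min hκ hκ', fun σ hσ => ?_⟩
  have hn : ‖(EuclideanSpace.single 0 σ : V 1)‖ = |σ| := by
    rw [EuclideanSpace.norm_single, Real.norm_eq_abs]
  refine ⟨Hf (EuclideanSpace.single 0 σ), hκU _ (by
    rw [hn]; exact hσ.trans_le (min_le_right _ _)), fun y => ?_⟩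
  rw [hH _ (by rw [hn]; exact hσ.trans_le (min_le_left _ _))]
  simp [hB]

section rev

variable {A : Matrix (Fin k) (Fin k) ℤ} (hdet : A.det ≠ 0) (F : DiffM n N r)
  (hF : ∀ t x, F (a t x) = a (rmul A t) (F x))
  (h0 : ∀ x, p x = 0 → p (F x) = 1) (h1 : ∀ x, p x = 1 → p (F x) = 0)
  {x₀ : N} (hx₀ : p x₀ = 1 / 2)

/-- the induced map of the line -/
noncomputable def gg (p : N → ℝ) (b : ℝ → N → N) (F : N → N) (x₀ : N) (s : ℝ) : ℝ :=
  lg (vv p b F x₀ s)

include H hdet hF hx₀ in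
theorem vv_io (s : ℝ) : vv p b F x₀ s ∈ Ioo (0 : ℝ) 1 :=
  int_of_orb H F (orb_iff H hF hdet F.injective) (by rw [p_flow H hx₀]; exact ⟨sg_pos s, sg_lt s⟩)

include H hdet hF hx₀ in
theorem sg_gg (s : ℝ) : sg (gg p b F x₀ s) = vv p b F x₀ s := by
  have h := vv_io H hdet F hF hx₀ s
  exact sg_lg h.1 h.2

include H hdet hF hx₀ in
/-- `F` acts on the levels by `gg` -/
theorem p_gg {x : N} {s : ℝ} (hx : p x = sg s) : p (F x) = sg (gg p b F x₀ s) := by
  rw [sg_gg H hdet F hF hx₀]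
  show p (F x) = p (F _)
  rw [orb_iff H hF hdet F.injective, p_flow H hx₀, hx]

include H hdet hF h0 hx₀ in
theorem vv_anti : StrictAnti (vv p b F x₀) := by
  have hO := orb_iff H hF hdet F.injective
  have hb : Continuous fun s => b s x₀ :=
    H.b_smooth.continuous.comp (continuous_id.prodMk continuous_const)
  have hv : Continuous (vv p b F x₀) := H.p_smooth.continuous.comp (F.continuous.comp hb)
  rcases hv.strictMono_of_inj (vv_inj H F hO hx₀) with h | h
  · exfalso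
    obtain ⟨y, -, hy⟩ := (isCompact_univ (X := N)).exists_mapClusterPt
      (f := atTop) (u := fun n : ℕ => b (-(n : ℝ)) x₀) (by simp)
    have e1 : p y = 0 := by
      refine cluster_eq hy H.p_smooth.continuous ?_
      have : Tendsto (fun n : ℕ => sg (-(n : ℝ))) atTop (𝓝 0) :=
        sg_bot.comp (tendsto_neg_atTop_atBot.comp tendsto_natCast_atTop_atTop)
      refine this.congr fun n => ?_
      rw [p_flow H hx₀]
    obtain ⟨U, hU, hUy⟩ := mapClusterPt_iff_ultrafilter.1 hy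
    have h2 : Tendsto (fun n : ℕ => p (F (b (-(n : ℝ)) x₀))) U (𝓝 (p (F y))) :=
      ((H.p_smooth.continuous.comp F.continuous).tendsto y).comp hUy
    have h3 : p (F y) ≤ vv p b F x₀ 0 := by
      refine le_of_tendsto h2 (Filter.Eventually.of_forall fun n => ?_)
      exact h.monotone (show -(n : ℝ) ≤ 0 by simp)
    rw [h0 y e1] at h3
    exact absurd h3 (not_le.2 (vv_io H hdet F hF hx₀ 0).2)
  · exact h

include H hdet hF h0 hx₀ in
theorem gg_anti : StrictAnti (gg p b F x₀) := by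
  intro s t h
  rw [← sg_mono.lt_iff_lt, sg_gg H hdet F hF hx₀, sg_gg H hdet F hF hx₀]
  exact vv_anti H hdet F hF h0 hx₀ h

include H hr hdet hF hx₀ in
theorem gg_diff : Differentiable ℝ (gg p b F x₀) := by
  intro s
  have hv := vv_io H hdet F hF hx₀ s
  have h2 : 1 - vv p b F x₀ s ≠ 0 := by linarith [hv.2]
  have hd := vv_diff H hr F (x₀ := x₀) s
  unfold gg lg
  exact (hd.div ((differentiableAt_const 1).sub hd) h2).log (div_ne_zero hv.1.ne' h2)

include H hr hdet hF h0 hx₀ in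
theorem gg_fix : ∃ z, gg p b F x₀ z = z := by
  have hanti := gg_anti H hdet F hF h0 hx₀
  have hc := (gg_diff H hr hdet F hF hx₀).continuous
  set g := gg p b F x₀ with hg
  set s₁ := min 0 (g 0) - 1 with hs₁
  set s₂ := max 0 (g 0) + 1 with hs₂
  have e1 : s₁ ≤ 0 := by
    have := min_le_left 0 (g 0)
    linarith
  have e2 : 0 ≤ s₂ := by
    have := le_max_left 0 (g 0)
    linarith
  have e3 : 0 ≤ g s₁ - s₁ := by
    have h2 := hanti.antitone e1
    have h3 := min_le_right 0 (g 0)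
    linarith
  have e4 : g s₂ - s₂ ≤ 0 := by
    have h2 := hanti.antitone e2
    have h3 := le_max_right 0 (g 0)
    linarith
  obtain ⟨z, -, hz⟩ := intermediate_value_Icc' (e1.trans e2)
    (hc.sub continuous_id).continuousOn (show (0 : ℝ) ∈ Icc _ _ from ⟨e4, e3⟩)
  exact ⟨z, by
    have : g z - z = 0 := hz
    linarith⟩

include H hr hdet hF h0 h1 hx₀ in
/-- the limits of the displacement of the square -/
theorem gg_limits : (∃ l, Tendsto (fun s => Real.exp (gg p b F x₀ (gg p b F x₀ s) - s)) atBot (𝓝 l)) ∧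
    ∃ l, Tendsto (fun s => Real.exp (-(gg p b F x₀ (gg p b F x₀ s) - s))) atTop (𝓝 l) := by
  have hO := orb_iff H hF hdet F.injective
  have hO2 : ∀ x y, p ((F.trans F) x) = p ((F.trans F) y) ↔ p x = p y := by
    intro x y
    show p (F (F x)) = p (F (F y)) ↔ _
    rw [hO, hO]
  have h02 : ∀ x, p x = 0 → p ((F.trans F) x) = 0 := fun x hx => h1 _ (h0 x hx)
  have h12 : ∀ x, p x = 1 → p ((F.trans F) x) = 1 := fun x hx => h0 _ (h1 x hx)
  have e : ∀ s, dd p b (F.trans F) x₀ s = gg p b F x₀ (gg p b F x₀ s) - s := by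
    intro s
    unfold dd
    congr 1
    apply sg_mono.injective
    have h2 := vv_mem H (F.trans F) hO2 h02 h12 hx₀ s
    rw [sg_lg h2.1 h2.2]
    show p (F (F (b s x₀))) = _
    exact p_gg H hdet F hF hx₀ (p_gg H hdet F hF hx₀ (p_flow H hx₀ s))
  constructor
  · obtain ⟨l, hl⟩ := exp_dd_bot H hr (F.trans F) hO2 h02 h12 hx₀
    exact ⟨l, hl.congr fun s => by rw [e]⟩
  · obtain ⟨l, hl⟩ := exp_dd_top H hr (F.trans F) hO2 h02 h12 hx₀
    exact ⟨l, hl.congr fun s => by rw [e]⟩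

end rev

end Pool.Agent.W5h32.CO
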