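import Pool.Agent.W5h32.CO.Rev

/-!
# The theorem for diffeomorphisms which normalise a torus action with orbit space an interval
-/

set_option autoImplicit false
set_option linter.unusedSectionVars false

open scoped Manifold ContDiff Topology
open Filter Set Metric MeasureTheory

universe u

namespace Pool.Agent.W5h32.CO

open Pool.Agent.H718R2.G Pool.Agent.Y318.MN Pool.Agent.W5h32.PT Pool.Agent.W564.SC
  Pool.Agent.TH80.CLX

open Pool.Agent.H728R2.FA (omegaLim FiniteAttractors)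

variable {n k : ℕ} {N : Type u} [TopologicalSpace N] [T2Space N] [CompactSpace N]
  [ChartedSpace (V n) N]
  [IsManifold (𝓡 n) ∞ N] {a : (Fin k → ℝ) → N → N} {p : N → ℝ} {b : ℝ → N → N}
  (H : IsInterval n a p b) {r : ℕ∞} (hr : 1 ≤ r)

theorem sg_hasDeriv (s : ℝ) : ∃ c, 0 < c ∧ HasDerivAt sg c s := by
  have h := Real.exp_pos s
  refine ⟨Real.exp s / (1 + Real.exp s) ^ 2, by positivity, ?_⟩
  have h1 : HasDerivAt (fun s => Real.exp s / (1 + Real.exp s))
      ((Real.exp s * (1 + Real.exp s) - Real.exp s * Real.exp s) / (1 + Real.exp s) ^ 2) s :=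
    (Real.hasDerivAt_exp s).div ((Real.hasDerivAt_exp s).const_add 1) (by positivity)
  have e : (Real.exp s * (1 + Real.exp s) - Real.exp s * Real.exp s) / (1 + Real.exp s) ^ 2 =
      Real.exp s / (1 + Real.exp s) ^ 2 := by ring
  rw [e] at h1
  exact h1

section push

variable {A : Matrix (Fin k) (Fin k) ℤ} {G G' : DiffM n N r}
  (hG : ∀ t x, G (a t x) = a (rmul A t) (G x)) {R : ℝ → ℝ} {σ : ℝ}
  (hG' : ∀ y, G' y = G (b (R (p y) * σ) y))

include H hG hG' in
theorem push_norm : ∀ t x, G' (a t x) = a (rmul A t) (G' x) := by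
  intro t x
  rw [hG', p_inv H, H.b_comm, hG, hG']

include H in
theorem b_zero_end {x : N} (hx : p x = 0) (s : ℝ) : p (b s x) = 0 := by
  rw [H.b_p, hx]
  simp

include H in
theorem b_one_end {x : N} (hx : p x = 1) (s : ℝ) : p (b s x) = 1 := by
  rw [H.b_p, hx]
  have := Real.exp_pos s
  field_simp
  ring

include H hG' in
theorem push_end0 (h0 : ∀ x, p x = 0 → p (G x) = 1) (x : N) (hx : p x = 0) : p (G' x) = 1 := by
  rw [hG']
  exact h0 _ (b_zero_end H hx _)

include H hG' in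
theorem push_end1 (h1 : ∀ x, p x = 1 → p (G x) = 0) (x : N) (hx : p x = 1) : p (G' x) = 0 := by
  rw [hG']
  exact h1 _ (b_one_end H hx _)

include H hG' in
theorem push_gg {x₀ : N} (hx₀ : p x₀ = 1 / 2) (s : ℝ) :
    gg p b G' x₀ s = gg p b G x₀ (s + σ * R (sg s)) := by
  unfold gg vv
  rw [hG', p_flow H hx₀, ← H.b_add]
  congr 4
  ring

end push

variable (ha : IsTorusAction n k N a)
  {A : Matrix (Fin k) (Fin k) ℤ} (hdet : A.det ≠ 0) (hA : ∀ m, 1 ≤ m → (psum A m).det ≠ 0)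
  (F : DiffM n N r) (hF : ∀ t x, F (a t x) = a (rmul A t) (F x))

include H ha hr hdet hA hF in
/-- the theorem for diffeomorphisms which exchange the ends -/
theorem good_rev (h0 : ∀ x, p x = 0 → p (F x) = 1) (h1 : ∀ x, p x = 1 → p (F x) = 0)
    (U : Set (DiffM n N r)) (hU : IsOpen[strongTop n N r] U) (hFU : F ∈ U) :
    ∃ G ∈ U, (∀ t x, G (a t x) = a (rmul A t) (G x)) ∧ Good a G := by
  obtain ⟨x₀, hx₀⟩ := exists_mid H
  obtain ⟨z, hz⟩ := gg_fix H hr hdet F hF h0 hx₀
  obtain ⟨c, hc0, hc⟩ := sg_hasDeriv z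
  -- first push
  obtain ⟨δ₁, hδ₁, hpush₁⟩ := var_push H hr F (ρ := fun x => p x - sg z)
    (H.p_smooth.sub contMDiff_const) U hU hFU
  obtain ⟨ε, hε, hne⟩ : ∃ ε : ℝ, |ε| < δ₁ ∧
      (deriv (gg p b F x₀) z * (1 + ε * c)) ^ 2 ≠ 1 := by
    by_cases h : deriv (gg p b F x₀) z ^ 2 = 1
    · refine ⟨δ₁ / 2, by rw [abs_of_pos (by positivity)]; linarith, ?_⟩
      rw [mul_pow, h, one_mul]
      have : 0 < δ₁ / 2 * c := by positivity
      intro h2
      nlinarith
    · refine ⟨0, by rw [abs_zero]; exact hδ₁, ?_⟩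
      rw [zero_mul, add_zero, mul_one]
      exact h
  obtain ⟨G₁, hG₁U, hG₁⟩ := hpush₁ ε hε
  have hG₁' : ∀ y, G₁ y = F (b ((fun q => q - sg z) (p y) * ε) y) := hG₁
  have hn₁ := push_norm (R := fun q => q - sg z) H hF hG₁'
  have h0₁ := push_end0 (R := fun q => q - sg z) H hG₁' h0
  have h1₁ := push_end1 (R := fun q => q - sg z) H hG₁' h1
  have hgg₁ := push_gg (R := fun q => q - sg z) H hG₁' hx₀
  have hz₁ : gg p b G₁ x₀ z = z := by
    rw [hgg₁]
    simp only [sub_self, mul_zero, add_zero]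
    exact hz
  have hd₁ : deriv (gg p b G₁ x₀) z ^ 2 ≠ 1 := by
    have e1 : HasDerivAt (fun s => s + ε * (sg s - sg z)) (1 + ε * c) z :=
      (hasDerivAt_id z).add ((hc.sub_const (sg z)).const_mul ε)
    have e2 : HasDerivAt (gg p b F x₀) (deriv (gg p b F x₀) z) (z + ε * (sg z - sg z)) := by
      rw [sub_self, mul_zero, add_zero]
      exact (gg_diff H hr hdet F hF hx₀ z).hasDerivAt
    have e3 : HasDerivAt (gg p b G₁ x₀) (deriv (gg p b F x₀) z * (1 + ε * c)) z := by
      have e4 : gg p b G₁ x₀ = (gg p b F x₀) ∘ fun s => s + ε * (sg s - sg z) := funext hgg₁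
      rw [e4]
      exact e2.comp z e1
    rw [e3.deriv]
    exact hne
  obtain ⟨⟨l, hl⟩, l', hl'⟩ := gg_limits H hr hdet G₁ hn₁ h0₁ h1₁ hx₀
  obtain ⟨s₀, s₁, hzs, hs01, hfin⟩ := rev_finite (gg_diff H hr hdet G₁ hn₁ hx₀)
    (gg_anti H hdet G₁ hn₁ h0₁ hx₀) hz₁ hd₁ hl hl'
  have hpp : 0 < sg s₁ - sg s₀ := sub_pos.2 (sg_mono hs01)
  set R : ℝ → ℝ := fun y => Real.smoothTransition ((y - sg s₀) / (sg s₁ - sg s₀)) with hR
  have hRs : ContDiff ℝ ∞ R :=
    Real.smoothTransition.contDiff.comp ((contDiff_id.sub contDiff_const).div_const _)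
  -- second push
  obtain ⟨δ₂, hδ₂, hpush₂⟩ := var_push H hr G₁ (ρ := fun x => R (p x))
    (hRs.contMDiff.comp H.p_smooth) U hU hG₁U
  obtain ⟨σ, hσ, hfin₂⟩ := hfin (fun s => R (sg s)) (hRs.continuous.comp sg_cont)
    (fun s => Real.smoothTransition.nonneg _) (fun s => Real.smoothTransition.le_one _)
    (fun s hs => Real.smoothTransition.zero_of_nonpos
      (div_nonpos_of_nonpos_of_nonneg (sub_nonpos.2 (sg_mono.monotone hs)) hpp.le))
    (fun s hs => Real.smoothTransition.one_of_one_le (by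
      rw [le_div_iff₀ hpp, one_mul]
      exact sub_le_sub_right (sg_mono.monotone hs) _)) δ₂ hδ₂
  obtain ⟨G₂, hG₂U, hG₂⟩ := hpush₂ σ hσ
  have hn₂ := push_norm (R := R) H hn₁ hG₂
  have h0₂ := push_end0 (R := R) H hG₂ h0₁
  have h1₂ := push_end1 (R := R) H hG₂ h1₁
  have hgg₂ := push_gg (R := R) H hG₂ hx₀
  have hO₂ := orb_iff H hn₂ hdet G₂.injective
  refine good_near H ha hr hdet hA hn₂ (fun x y h => ?_) ?_ U hU hG₂U
  · exact F_mono H hr (G₂.trans G₂) (fun x y => by
      show p (G₂ (G₂ x)) = p (G₂ (G₂ y)) ↔ _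
      rw [hO₂, hO₂]) (fun x hx => h1₂ _ (h0₂ x hx)) (fun x hx => h0₂ _ (h1₂ x hx)) hx₀ h
  · refine (((finite_singleton (0 : ℝ)).union (finite_singleton (1 : ℝ))).union
      (hfin₂.image sg)).subset ?_
    rintro q ⟨x, rfl, hx⟩
    rcases (H.p_mem x).1.eq_or_lt with h | h
    · exact Or.inl (Or.inl h.symm)
    rcases (H.p_mem x).2.eq_or_lt with h' | h'
    · exact Or.inl (Or.inr h')
    · refine Or.inr ⟨lg (p x), ?_, sg_lg h h'⟩
      have e1 := p_gg H hdet G₂ hn₂ hx₀ (p_gg H hdet G₂ hn₂ hx₀ (sg_lg h h').symm)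
      rw [hx] at e1
      conv_lhs at e1 => rw [← sg_lg h h']
      have e2 := sg_mono.injective e1
      rw [hgg₂, hgg₂] at e2
      exact e2.symm

include H ha hr hdet hA hF in
/-- **Finitely many attractors near every diffeomorphism which normalises a torus action with orbit
space an interval.** -/
theorem good_all (U : Set (DiffM n N r)) (hU : IsOpen[strongTop n N r] U) (hFU : F ∈ U) :
    ∃ G ∈ U, (∀ t x, G (a t x) = a (rmul A t) (G x)) ∧ Good a G := by
  rcases ends H F (orb_iff H hF hdet F.injective) with ⟨h0, h1⟩ | ⟨h0, h1⟩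
  · exact good_pre H ha hr hdet hA F hF h0 h1 U hU hFU
  · exact good_rev H hr ha hdet hA F hF h0 h1 U hU hFU

include H ha hr in
theorem near_all {A : Matrix (Fin k) (Fin k) ℤ} {F : DiffM n N r} (hF : Normalises a A F) :
    Near F fun G => Normalises a A G ∧ Good a G := by
  intro U hU hFU
  obtain ⟨G, hGU, hG, hgood⟩ := good_all H hr ha hF.det hF.root F hF.comm U hU hFU
  exact ⟨G, hGU, ⟨hF.det, hF.root, hG⟩, hgood⟩

theorem normalises_one {F : N → N} (hF : ∀ t x, F (a t x) = a t (F x)) : Normalises a 1 F where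
  det := by simp
  root m hm := by
    have e : ∑ j ∈ Finset.range m, (1 : Matrix (Fin k) (Fin k) ℤ) ^ j =
        (m : ℤ) • (1 : Matrix (Fin k) (Fin k) ℤ) := by
      simp
    rw [e, Matrix.det_smul, Matrix.det_one, mul_one]
    positivity
  comm t x := by
    rw [Matrix.map_one _ Int.cast_zero Int.cast_one, Matrix.one_mulVec, hF]

/-- Every `C^r` neighbourhood of `F` contains diffeomorphisms `G` with the property `Good` which
normalise the action in the same way. -/
def Approx {n k : ℕ} {N : Type u} [TopologicalSpace N] [ChartedSpace (V n) N] {r : ℕ∞}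
    (a : (Fin k → ℝ) → N → N) (A : Matrix (Fin k) (Fin k) ℤ) (F : DiffM n N r) : Prop :=
  Near F fun G => Normalises a A G ∧ Good a G

/-- `a` is a smooth torus action whose orbit space is an interval. -/
def CohOne (n k : ℕ) (N : Type u) [TopologicalSpace N] [ChartedSpace (V n) N]
    (a : (Fin k → ℝ) → N → N) : Prop :=
  IsTorusAction n k N a ∧ ∃ (p : N → ℝ) (b : ℝ → N → N), IsInterval n a p b

include H ha hr in
theorem near_comm {F : DiffM n N r} (hF : ∀ t x, F (a t x) = a t (F x)) :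
    Near F fun G => (∀ t x, G (a t x) = a t (G x)) ∧ Good a G := by
  intro U hU hFU
  obtain ⟨G, hGU, hG, hgood⟩ := near_all H hr ha (normalises_one hF) U hU hFU
  refine ⟨G, hGU, fun t x => ?_, hgood⟩
  rw [hG.comm, Matrix.map_one _ Int.cast_zero Int.cast_one, Matrix.one_mulVec]

end Pool.Agent.W5h32.CO
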