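import Pool.Agent.W5h32.CO.Sph3

/-!
# The rotations of the 2-sphere
-/

set_option autoImplicit false

open scoped Manifold ContDiff Topology
open Filter Set Metric

namespace Pool.Agent.W5h32.CO

open Pool.Agent.H718R2.G Pool.Agent.W5h32.PT

instance fact3 : Fact (Module.finrank ℝ (EuclideanSpace ℝ (Fin 3)) = 2 + 1) := ⟨by simp⟩

/-- the unit sphere of `ℝ³` -/
abbrev S2 : Type := Metric.sphere (0 : EuclideanSpace ℝ (Fin 3)) 1

theorem mem_S2 (x : EuclideanSpace ℝ (Fin 3)) :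
    x ∈ Metric.sphere (0 : EuclideanSpace ℝ (Fin 3)) 1 ↔ x 0 ^ 2 + x 1 ^ 2 + x 2 ^ 2 = 1 := by
  rw [mem_sphere_zero_iff_norm, EuclideanSpace.norm_eq, Fin.sum_univ_three]
  simp only [Real.norm_eq_abs, sq_abs]
  rw [Real.sqrt_eq_one]

/-- the rotation about the third axis -/
noncomputable def rot3 (t : Fin 1 → ℝ) (x : EuclideanSpace ℝ (Fin 3)) : EuclideanSpace ℝ (Fin 3) :=
  !₂[Real.cos (2 * Real.pi * t 0) * x 0 - Real.sin (2 * Real.pi * t 0) * x 1,
    Real.sin (2 * Real.pi * t 0) * x 0 + Real.cos (2 * Real.pi * t 0) * x 1, x 2]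

theorem rot3_mem (t : Fin 1 → ℝ) (x : S2) :
    rot3 t x ∈ Metric.sphere (0 : EuclideanSpace ℝ (Fin 3)) 1 := by
  rw [mem_S2]
  have hx := (mem_S2 x).1 x.2
  have h0 := Real.sin_sq_add_cos_sq (2 * Real.pi * t 0)
  simp only [rot3, PiLp.toLp_apply, Matrix.cons_val]
  linear_combination hx + ((x : EuclideanSpace ℝ (Fin 3)) 0 ^ 2 +
    (x : EuclideanSpace ℝ (Fin 3)) 1 ^ 2) * h0

/-- The action of the circle on the unit sphere of `ℝ³` by the rotations about the third axis. -/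
noncomputable def act2 (t : Fin 1 → ℝ) (x : S2) : S2 := ⟨rot3 t x, rot3_mem t x⟩

/-- the normalised height -/
noncomputable def p2 (x : S2) : ℝ := (1 + (x : EuclideanSpace ℝ (Fin 3)) 2) / 2

noncomputable def den3 (s : ℝ) (x : EuclideanSpace ℝ (Fin 3)) : ℝ :=
  1 - (1 + x 2) / 2 + Real.exp s * ((1 + x 2) / 2)

noncomputable def fl3 (s : ℝ) (x : EuclideanSpace ℝ (Fin 3)) : EuclideanSpace ℝ (Fin 3) :=
  (den3 s x)⁻¹ • !₂[Real.exp (s / 2) * x 0, Real.exp (s / 2) * x 1,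
    Real.exp s * ((1 + x 2) / 2) - (1 - (1 + x 2) / 2)]

theorem p2_mem (x : S2) : p2 x ∈ Icc (0 : ℝ) 1 := by
  have hx := (mem_S2 x).1 x.2
  have h1 : (x : EuclideanSpace ℝ (Fin 3)) 2 ^ 2 ≤ 1 := by
    nlinarith [sq_nonneg ((x : EuclideanSpace ℝ (Fin 3)) 0),
      sq_nonneg ((x : EuclideanSpace ℝ (Fin 3)) 1)]
  have h2 := abs_le.1 ((sq_le_one_iff_abs_le_one _).1 h1)
  unfold p2
  constructor <;> linarith [h2.1, h2.2]

theorem den3_pos (s : ℝ) (x : S2) : 0 < den3 s x := by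
  have h := p2_mem x
  unfold p2 at h
  unfold den3
  have h1 := Real.exp_pos s
  set u := (1 + (x : EuclideanSpace ℝ (Fin 3)) 2) / 2 with hu
  rcases h.1.eq_or_lt with h2 | h2
  · rw [← h2]; norm_num
  · have : 0 ≤ 1 - u := by linarith [h.2]
    positivity

theorem fl3_mem (s : ℝ) (x : S2) :
    fl3 s x ∈ Metric.sphere (0 : EuclideanSpace ℝ (Fin 3)) 1 := by
  rw [mem_S2]
  have hx := (mem_S2 x).1 x.2
  have hd := den3_pos s x
  have h2 := exp_half s
  simp only [fl3, PiLp.smul_apply, PiLp.toLp_apply, Matrix.cons_val, smul_eq_mul, mul_pow]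
  rw [h2]
  have h4 : ((den3 s x)⁻¹ * den3 s x) ^ 2 = 1 := by
    rw [inv_mul_cancel₀ hd.ne', one_pow]
  rw [mul_pow] at h4
  unfold den3 at h4 ⊢
  linear_combination h4 + (1 - (1 + (x : EuclideanSpace ℝ (Fin 3)) 2) / 2 +
    Real.exp s * ((1 + (x : EuclideanSpace ℝ (Fin 3)) 2) / 2))⁻¹ ^ 2 * Real.exp s * hx

/-- the flow on the sphere -/
noncomputable def flow2 (s : ℝ) (x : S2) : S2 := ⟨fl3 s x, fl3_mem s x⟩

theorem coord_smooth2 (i : Fin 3) {E : Type*} [NormedAddCommGroup E] [NormedSpace ℝ E] :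
    ContMDiff (𝓘(ℝ, E).prod (𝓡 2)) 𝓘(ℝ, ℝ) ∞
      (fun q : E × S2 => (q.2 : EuclideanSpace ℝ (Fin 3)) i) := by
  have h1 : ContMDiff (𝓡 2) 𝓘(ℝ, EuclideanSpace ℝ (Fin 3)) ∞
      (fun x : S2 => (x : EuclideanSpace ℝ (Fin 3))) := contMDiff_coe_sphere
  have h2 : ContDiff ℝ ∞ (fun x : EuclideanSpace ℝ (Fin 3) => x i) :=
    (EuclideanSpace.proj (𝕜 := ℝ) i).contDiff
  exact h2.contMDiff.comp (h1.comp contMDiff_snd)

theorem to_sphere2 {E : Type*} [NormedAddCommGroup E] [NormedSpace ℝ E]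
    {f : E × S2 → EuclideanSpace ℝ (Fin 3)}
    (hf : ∀ i, ContMDiff (𝓘(ℝ, E).prod (𝓡 2)) 𝓘(ℝ, ℝ) ∞ (fun q => f q i))
    (hm : ∀ q, f q ∈ Metric.sphere (0 : EuclideanSpace ℝ (Fin 3)) 1) :
    ContMDiff (𝓘(ℝ, E).prod (𝓡 2)) (𝓡 2) ∞ (fun q => (⟨f q, hm q⟩ : S2)) := by
  have h1 : ContMDiff (𝓘(ℝ, E).prod (𝓡 2)) 𝓘(ℝ, EuclideanSpace ℝ (Fin 3)) ∞ f := by
    have h2 : ContMDiff (𝓘(ℝ, E).prod (𝓡 2)) 𝓘(ℝ, Fin 3 → ℝ) ∞ (fun q i => f q i) :=
      contMDiff_pi_space.2 hf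
    have h3 : ContDiff ℝ ∞ (fun y : Fin 3 → ℝ => (WithLp.toLp 2 y : EuclideanSpace ℝ (Fin 3))) :=
      PiLp.contDiff_toLp
    exact h3.contMDiff.comp h2
  exact h1.codRestrict_sphere hm

theorem curve_smooth2 {f : ℝ → EuclideanSpace ℝ (Fin 3)} (hf : ∀ i, ContDiff ℝ ∞ fun τ => f τ i)
    (hm : ∀ τ, f τ ∈ Metric.sphere (0 : EuclideanSpace ℝ (Fin 3)) 1) :
    ContMDiff 𝓘(ℝ, ℝ) (𝓡 2) ∞ (fun τ => (⟨f τ, hm τ⟩ : S2)) := by
  have h1 : ContDiff ℝ ∞ f := contDiff_euclidean.2 hf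
  exact h1.contMDiff.codRestrict_sphere hm

theorem act2_torus : IsTorusAction 2 1 S2 act2 where
  smooth := by
    refine to_sphere2 (f := fun q : (Fin 1 → ℝ) × S2 => rot3 q.1 q.2) (fun i => ?_)
      (fun q => rot3_mem q.1 q.2)
    have hc : ContMDiff (𝓘(ℝ, Fin 1 → ℝ).prod (𝓡 2)) 𝓘(ℝ, ℝ) ∞
        (fun q : (Fin 1 → ℝ) × S2 => Real.cos (2 * Real.pi * q.1 0)) := by
      have h2 : ContDiff ℝ ∞ (fun t : Fin 1 → ℝ => Real.cos (2 * Real.pi * t 0)) :=
        Real.contDiff_cos.comp (contDiff_const.mul (contDiff_apply ℝ ℝ 0))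
      exact h2.contMDiff.comp contMDiff_fst
    have hs : ContMDiff (𝓘(ℝ, Fin 1 → ℝ).prod (𝓡 2)) 𝓘(ℝ, ℝ) ∞
        (fun q : (Fin 1 → ℝ) × S2 => Real.sin (2 * Real.pi * q.1 0)) := by
      have h2 : ContDiff ℝ ∞ (fun t : Fin 1 → ℝ => Real.sin (2 * Real.pi * t 0)) :=
        Real.contDiff_sin.comp (contDiff_const.mul (contDiff_apply ℝ ℝ 0))
      exact h2.contMDiff.comp contMDiff_fst
    fin_cases i
    · exact (hc.mul (coord_smooth2 0)).sub (hs.mul (coord_smooth2 1))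
    · exact (hs.mul (coord_smooth2 0)).add (hc.mul (coord_smooth2 1))
    · exact coord_smooth2 2
  zero x := by
    apply Subtype.ext
    ext i
    fin_cases i <;> simp [act2, rot3]
  add s t x := by
    apply Subtype.ext
    ext i
    fin_cases i <;> simp [act2, rot3, mul_add, Real.cos_add, Real.sin_add] <;> ring
  int z x := by
    apply Subtype.ext
    have hc : ∀ m : ℤ, Real.cos (2 * Real.pi * m) = 1 := fun m => by
      rw [mul_comm]; exact Real.cos_int_mul_two_pi m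
    have hs : ∀ m : ℤ, Real.sin (2 * Real.pi * m) = 0 := fun m => by
      have : 2 * Real.pi * m = ((2 * m : ℤ) : ℝ) * Real.pi := by push_cast; ring
      rw [this]
      exact Real.sin_int_mul_pi _
    ext i
    fin_cases i <;> simp [act2, rot3, hc, hs]

theorem p2_flow (s : ℝ) (x : S2) :
    p2 (flow2 s x) = Real.exp s * p2 x / (1 - p2 x + Real.exp s * p2 x) := by
  have hd := den3_pos s x
  have h2 : den3 s x = 1 - p2 x + Real.exp s * p2 x := rfl
  have h3 : p2 (flow2 s x) = (1 + (den3 s x)⁻¹ *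
      (Real.exp s * p2 x - (1 - p2 x))) / 2 := by
    simp [p2, flow2, fl3]
  rw [← h2, h3]
  field_simp
  rw [h2]
  ring

theorem second_half (c : ℝ) : deriv (deriv fun τ : ℝ => (1 + c * Real.cos τ) / 2) 0 = - c / 2 := by
  have e : (deriv fun τ : ℝ => (1 + c * Real.cos τ) / 2) = fun τ => - c / 2 * Real.sin τ := by
    funext τ
    have h : HasDerivAt (fun τ : ℝ => (1 + c * Real.cos τ) / 2) ((c * -Real.sin τ) / 2) τ :=
      (((Real.hasDerivAt_cos τ).const_mul c).const_add 1).div_const 2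
    rw [h.deriv]
    ring
  rw [e]
  have h : HasDerivAt (fun τ : ℝ => - c / 2 * Real.sin τ) (- c / 2 * Real.cos 0) 0 :=
    (Real.hasDerivAt_sin 0).const_mul (- c / 2)
  rw [h.deriv]
  simp

theorem interval2 : IsInterval 2 act2 p2 flow2 where
  p_smooth := by
    have h1 : ContMDiff (𝓡 2) 𝓘(ℝ, EuclideanSpace ℝ (Fin 3)) ∞
        (fun x : S2 => (x : EuclideanSpace ℝ (Fin 3))) := contMDiff_coe_sphere
    have h2 : ContDiff ℝ ∞ (fun x : EuclideanSpace ℝ (Fin 3) => x 2) :=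
      (EuclideanSpace.proj (𝕜 := ℝ) (2 : Fin 3)).contDiff
    have h3 : ContDiff ℝ ∞ (fun x : EuclideanSpace ℝ (Fin 3) => (1 + x 2) / 2) :=
      (contDiff_const.add h2).div_const 2
    exact h3.contMDiff.comp h1
  p_mem := p2_mem
  p_orbit x y := by
    have hx := (mem_S2 x).1 x.2
    have hy := (mem_S2 y).1 y.2
    constructor
    · intro h
      unfold p2 at h
      have h2 : (x : EuclideanSpace ℝ (Fin 3)) 2 = (y : EuclideanSpace ℝ (Fin 3)) 2 := by linarith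
      have h' : (x : EuclideanSpace ℝ (Fin 3)) 0 ^ 2 + (x : EuclideanSpace ℝ (Fin 3)) 1 ^ 2 =
        (y : EuclideanSpace ℝ (Fin 3)) 0 ^ 2 + (y : EuclideanSpace ℝ (Fin 3)) 1 ^ 2 := by
        rw [h2] at hx
        linarith
      obtain ⟨t, ht1, ht2⟩ := exists_rot h'
      refine ⟨fun _ => t, ?_⟩
      apply Subtype.ext
      ext i
      fin_cases i
      · simpa [act2, rot3] using ht1
      · simpa [act2, rot3] using ht2
      · simpa [act2, rot3] using h2.symm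
    · rintro ⟨t, rfl⟩
      simp [p2, act2, rot3]
  b_smooth := by
    refine to_sphere2 (f := fun q : ℝ × S2 => fl3 q.1 q.2) (fun i => ?_)
      (fun q => fl3_mem q.1 q.2)
    have he : ContMDiff (𝓘(ℝ, ℝ).prod (𝓡 2)) 𝓘(ℝ, ℝ) ∞
        (fun q : ℝ × S2 => Real.exp q.1) := Real.contDiff_exp.contMDiff.comp contMDiff_fst
    have he2 : ContMDiff (𝓘(ℝ, ℝ).prod (𝓡 2)) 𝓘(ℝ, ℝ) ∞
        (fun q : ℝ × S2 => Real.exp (q.1 / 2)) :=
      (Real.contDiff_exp.comp (contDiff_id.div_const 2)).contMDiff.comp contMDiff_fst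
    have hp : ContMDiff (𝓘(ℝ, ℝ).prod (𝓡 2)) 𝓘(ℝ, ℝ) ∞
        (fun q : ℝ × S2 => (1 + (q.2 : EuclideanSpace ℝ (Fin 3)) 2) / 2) := by
      have h3 : ContDiff ℝ ∞ (fun y : ℝ => (1 + y) / 2) := (contDiff_const.add contDiff_id).div_const 2
      exact h3.contMDiff.comp (coord_smooth2 2)
    have hden : ContMDiff (𝓘(ℝ, ℝ).prod (𝓡 2)) 𝓘(ℝ, ℝ) ∞
        (fun q : ℝ × S2 => den3 q.1 q.2) := (contMDiff_const.sub hp).add (he.mul hp)
    have hinv : ContMDiff (𝓘(ℝ, ℝ).prod (𝓡 2)) 𝓘(ℝ, ℝ) ∞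
        (fun q : ℝ × S2 => (den3 q.1 q.2)⁻¹) := by
      intro q
      have h1 : ContDiffAt ℝ ∞ (fun y : ℝ => y⁻¹) (den3 q.1 q.2) :=
        contDiffAt_inv ℝ (den3_pos q.1 q.2).ne'
      exact ContMDiffAt.comp (g := fun y : ℝ => y⁻¹)
        (f := fun q : ℝ × S2 => den3 q.1 q.2) q h1.contMDiffAt (hden q)
    fin_cases i
    · exact hinv.mul (he2.mul (coord_smooth2 0))
    · exact hinv.mul (he2.mul (coord_smooth2 1))
    · exact hinv.mul ((he.mul hp).sub (contMDiff_const.sub hp))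
  b_zero x := by
    apply Subtype.ext
    have h1 : den3 0 x = 1 := by
      unfold den3
      rw [Real.exp_zero]
      ring
    ext i
    simp only [flow2, fl3, h1]
    fin_cases i
    · simp
    · simp
    · simp
      ring
  b_add s t x := by
    apply Subtype.ext
    have hd := den3_pos t x
    have hd2 := den3_pos (s + t) x
    have h6 : Real.exp ((s + t) / 2) = Real.exp (s / 2) * Real.exp (t / 2) := by
      rw [← Real.exp_add]
      congr 1
      ring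
    have hz : (fl3 t x) 2 = (den3 t x)⁻¹ * (Real.exp t * ((1 + (x : EuclideanSpace ℝ (Fin 3)) 2) / 2) -
        (1 - (1 + (x : EuclideanSpace ℝ (Fin 3)) 2) / 2)) := by
      simp [fl3]
    have hpz : (1 + (fl3 t x) 2) / 2 =
        Real.exp t * ((1 + (x : EuclideanSpace ℝ (Fin 3)) 2) / 2) / den3 t x := by
      rw [hz]
      field_simp
      unfold den3
      ring
    have h2 : den3 s (fl3 t x) = den3 (s + t) x / den3 t x := by
      have e : den3 s (fl3 t x) = 1 - (1 + (fl3 t x) 2) / 2 + Real.exp s * ((1 + (fl3 t x) 2) / 2) :=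
        rfl
      rw [e, hpz]
      have hd' : den3 t x ≠ 0 := hd.ne'
      field_simp
      unfold den3
      rw [Real.exp_add]
      ring
    show fl3 (s + t) x = fl3 s (fl3 t x)
    have e1 : fl3 s (fl3 t x) = (den3 s (fl3 t x))⁻¹ •
      !₂[Real.exp (s / 2) * (fl3 t x) 0, Real.exp (s / 2) * (fl3 t x) 1,
        Real.exp s * ((1 + (fl3 t x) 2) / 2) - (1 - (1 + (fl3 t x) 2) / 2)] := rfl
    have hd' : den3 t x ≠ 0 := hd.ne'
    have hd2' : den3 (s + t) x ≠ 0 := hd2.ne'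
    rw [e1, h2, hpz]
    ext i
    fin_cases i
    · simp only [fl3, PiLp.smul_apply, PiLp.toLp_apply, smul_eq_mul, Matrix.cons_val, Fin.zero_eta]
      rw [h6]
      field_simp
    · simp only [fl3, PiLp.smul_apply, PiLp.toLp_apply, smul_eq_mul, Matrix.cons_val, Fin.mk_one]
      rw [h6]
      field_simp
    · simp only [fl3, PiLp.smul_apply, PiLp.toLp_apply, smul_eq_mul, Matrix.cons_val,
        Fin.reduceFinMk]
      rw [Real.exp_add]
      field_simp
      unfold den3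
      ring
  b_comm s t x := by
    apply Subtype.ext
    have hd : den3 s (rot3 t x) = den3 s x := by
      simp [den3, rot3]
    show fl3 s (rot3 t x) = rot3 t (fl3 s x)
    have e1 : fl3 s (rot3 t x) = (den3 s (rot3 t x))⁻¹ •
      !₂[Real.exp (s / 2) * (rot3 t x) 0, Real.exp (s / 2) * (rot3 t x) 1,
        Real.exp s * ((1 + (rot3 t x) 2) / 2) - (1 - (1 + (rot3 t x) 2) / 2)] := rfl
    rw [e1, hd]
    ext i
    fin_cases i <;> simp [fl3, rot3] <;> ring
  b_p := p2_flow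
  hess0 := by
    refine ⟨fun τ => ⟨!₂[Real.sin τ, 0, -Real.cos τ], ?_⟩, ?_, ?_, ?_⟩
    · rw [mem_S2]
      have := Real.sin_sq_add_cos_sq τ
      simp only [PiLp.toLp_apply, Matrix.cons_val]
      linarith
    · refine curve_smooth2 (f := fun τ => !₂[Real.sin τ, 0, -Real.cos τ]) (fun i => ?_) _
      fin_cases i
      · exact Real.contDiff_sin
      · exact contDiff_const
      · exact Real.contDiff_cos.neg
    · simp [p2]
    · have e : (fun τ : ℝ => p2 ⟨!₂[Real.sin τ, 0, -Real.cos τ], by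
          rw [mem_S2]
          have := Real.sin_sq_add_cos_sq τ
          simp only [PiLp.toLp_apply, Matrix.cons_val]
          linarith⟩) = fun τ => (1 + (-1) * Real.cos τ) / 2 := by
        funext τ
        simp [p2]
      show deriv (deriv fun τ : ℝ => p2 ⟨!₂[Real.sin τ, 0, -Real.cos τ], _⟩) 0 ≠ 0
      rw [e, second_half]
      norm_num
  hess1 := by
    refine ⟨fun τ => ⟨!₂[Real.sin τ, 0, Real.cos τ], ?_⟩, ?_, ?_, ?_⟩
    · rw [mem_S2]
      have := Real.sin_sq_add_cos_sq τ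
      simp only [PiLp.toLp_apply, Matrix.cons_val]
      linarith
    · refine curve_smooth2 (f := fun τ => !₂[Real.sin τ, 0, Real.cos τ]) (fun i => ?_) _
      fin_cases i
      · exact Real.contDiff_sin
      · exact contDiff_const
      · exact Real.contDiff_cos
    · simp [p2]
    · have e : (fun τ : ℝ => p2 ⟨!₂[Real.sin τ, 0, Real.cos τ], by
          rw [mem_S2]
          have := Real.sin_sq_add_cos_sq τ
          simp only [PiLp.toLp_apply, Matrix.cons_val]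
          linarith⟩) = fun τ => (1 + 1 * Real.cos τ) / 2 := by
        funext τ
        simp [p2]
      show deriv (deriv fun τ : ℝ => p2 ⟨!₂[Real.sin τ, 0, Real.cos τ], _⟩) 0 ≠ 0
      rw [e, second_half]
      norm_num

end Pool.Agent.W5h32.CO
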