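import Pool.Agent.W5h32.CO.Dat

/-!
# The standard torus action on the 3-sphere
-/

set_option autoImplicit false

open scoped Manifold ContDiff Topology
open Filter Set Metric

namespace Pool.Agent.W5h32.CO

open Pool.Agent.H718R2.G Pool.Agent.W5h32.PT

instance fact4 : Fact (Module.finrank ℝ (EuclideanSpace ℝ (Fin 4)) = 3 + 1) := ⟨by simp⟩

/-- the unit sphere of `ℝ⁴ = ℂ²` -/
abbrev S3 : Type := Metric.sphere (0 : EuclideanSpace ℝ (Fin 4)) 1

theorem mem_S3 (x : EuclideanSpace ℝ (Fin 4)) :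
    x ∈ Metric.sphere (0 : EuclideanSpace ℝ (Fin 4)) 1 ↔ x 0 ^ 2 + x 1 ^ 2 + x 2 ^ 2 + x 3 ^ 2 = 1 := by
  rw [mem_sphere_zero_iff_norm, EuclideanSpace.norm_eq, Fin.sum_univ_four]
  simp only [Real.norm_eq_abs, sq_abs]
  rw [Real.sqrt_eq_one]

/-- the rotation of both complex coordinates -/
noncomputable def rot4 (t : Fin 2 → ℝ) (x : EuclideanSpace ℝ (Fin 4)) : EuclideanSpace ℝ (Fin 4) :=
  !₂[Real.cos (2 * Real.pi * t 0) * x 0 - Real.sin (2 * Real.pi * t 0) * x 1,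
    Real.sin (2 * Real.pi * t 0) * x 0 + Real.cos (2 * Real.pi * t 0) * x 1,
    Real.cos (2 * Real.pi * t 1) * x 2 - Real.sin (2 * Real.pi * t 1) * x 3,
    Real.sin (2 * Real.pi * t 1) * x 2 + Real.cos (2 * Real.pi * t 1) * x 3]

theorem rot4_mem (t : Fin 2 → ℝ) (x : S3) :
    rot4 t x ∈ Metric.sphere (0 : EuclideanSpace ℝ (Fin 4)) 1 := by
  rw [mem_S3]
  have hx := (mem_S3 x).1 x.2
  have h0 := Real.sin_sq_add_cos_sq (2 * Real.pi * t 0)
  have h1 := Real.sin_sq_add_cos_sq (2 * Real.pi * t 1)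
  simp only [rot4, PiLp.toLp_apply, Matrix.cons_val]
  linear_combination hx + ((x : EuclideanSpace ℝ (Fin 4)) 0 ^ 2 +
    (x : EuclideanSpace ℝ (Fin 4)) 1 ^ 2) * h0 + ((x : EuclideanSpace ℝ (Fin 4)) 2 ^ 2 +
    (x : EuclideanSpace ℝ (Fin 4)) 3 ^ 2) * h1

/-- The action of `𝕋²` on the unit sphere of `ℂ²` by rotations of the coordinates. -/
noncomputable def act3 (t : Fin 2 → ℝ) (x : S3) : S3 := ⟨rot4 t x, rot4_mem t x⟩

/-- the squared norm of the first complex coordinate -/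
noncomputable def p3 (x : S3) : ℝ :=
  (x : EuclideanSpace ℝ (Fin 4)) 0 ^ 2 + (x : EuclideanSpace ℝ (Fin 4)) 1 ^ 2

/-- the flow before normalisation -/
noncomputable def den4 (s : ℝ) (x : EuclideanSpace ℝ (Fin 4)) : ℝ :=
  Real.exp s * (x 0 ^ 2 + x 1 ^ 2) + (x 2 ^ 2 + x 3 ^ 2)

noncomputable def fl4 (s : ℝ) (x : EuclideanSpace ℝ (Fin 4)) : EuclideanSpace ℝ (Fin 4) :=
  (Real.sqrt (den4 s x))⁻¹ •
    !₂[Real.exp (s / 2) * x 0, Real.exp (s / 2) * x 1, x 2, x 3]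

theorem den4_pos (s : ℝ) (x : S3) : 0 < den4 s x := by
  have hx := (mem_S3 x).1 x.2
  unfold den4
  have h1 := Real.exp_pos s
  set u := (x : EuclideanSpace ℝ (Fin 4)) 0 ^ 2 + (x : EuclideanSpace ℝ (Fin 4)) 1 ^ 2 with hu
  set w := (x : EuclideanSpace ℝ (Fin 4)) 2 ^ 2 + (x : EuclideanSpace ℝ (Fin 4)) 3 ^ 2 with hw
  have hu0 : 0 ≤ u := by positivity
  have hw0 : 0 ≤ w := by positivity
  have huw : u + w = 1 := by rw [hu, hw]; linarith
  rcases hu0.eq_or_lt with h | h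
  · rw [← h] at huw ⊢
    rw [mul_zero]
    linarith
  · positivity

theorem exp_half (s : ℝ) : Real.exp (s / 2) ^ 2 = Real.exp s := by
  rw [← Real.exp_nat_mul]
  congr 1
  push_cast
  ring

theorem fl4_mem (s : ℝ) (x : S3) :
    fl4 s x ∈ Metric.sphere (0 : EuclideanSpace ℝ (Fin 4)) 1 := by
  rw [mem_S3]
  have hd := den4_pos s x
  have h1 : (Real.sqrt (den4 s x))⁻¹ ^ 2 = (den4 s x)⁻¹ := by
    rw [inv_pow, Real.sq_sqrt hd.le]
  have h2 := exp_half s
  simp only [fl4, PiLp.smul_apply, PiLp.toLp_apply, Matrix.cons_val, smul_eq_mul, mul_pow]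
  rw [h1, h2]
  have h3 : den4 s x = Real.exp s * ((x : EuclideanSpace ℝ (Fin 4)) 0 ^ 2 +
    (x : EuclideanSpace ℝ (Fin 4)) 1 ^ 2) + ((x : EuclideanSpace ℝ (Fin 4)) 2 ^ 2 +
    (x : EuclideanSpace ℝ (Fin 4)) 3 ^ 2) := rfl
  have h4 : (den4 s x)⁻¹ * den4 s x = 1 := inv_mul_cancel₀ hd.ne'
  rw [h3] at h4 ⊢
  linear_combination h4

/-- the flow on the sphere -/
noncomputable def flow3 (s : ℝ) (x : S3) : S3 := ⟨fl4 s x, fl4_mem s x⟩

theorem coord_smooth (i : Fin 4) {E : Type*} [NormedAddCommGroup E] [NormedSpace ℝ E] :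
    ContMDiff (𝓘(ℝ, E).prod (𝓡 3)) 𝓘(ℝ, ℝ) ∞
      (fun q : E × S3 => (q.2 : EuclideanSpace ℝ (Fin 4)) i) := by
  have h1 : ContMDiff (𝓡 3) 𝓘(ℝ, EuclideanSpace ℝ (Fin 4)) ∞
      (fun x : S3 => (x : EuclideanSpace ℝ (Fin 4))) := contMDiff_coe_sphere
  have h2 : ContDiff ℝ ∞ (fun x : EuclideanSpace ℝ (Fin 4) => x i) :=
    (EuclideanSpace.proj (𝕜 := ℝ) i).contDiff
  exact h2.contMDiff.comp (h1.comp contMDiff_snd)

theorem to_sphere {E : Type*} [NormedAddCommGroup E] [NormedSpace ℝ E]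
    {f : E × S3 → EuclideanSpace ℝ (Fin 4)}
    (hf : ∀ i, ContMDiff (𝓘(ℝ, E).prod (𝓡 3)) 𝓘(ℝ, ℝ) ∞ (fun q => f q i))
    (hm : ∀ q, f q ∈ Metric.sphere (0 : EuclideanSpace ℝ (Fin 4)) 1) :
    ContMDiff (𝓘(ℝ, E).prod (𝓡 3)) (𝓡 3) ∞ (fun q => (⟨f q, hm q⟩ : S3)) := by
  have h1 : ContMDiff (𝓘(ℝ, E).prod (𝓡 3)) 𝓘(ℝ, EuclideanSpace ℝ (Fin 4)) ∞ f := by
    have h2 : ContMDiff (𝓘(ℝ, E).prod (𝓡 3)) 𝓘(ℝ, Fin 4 → ℝ) ∞ (fun q i => f q i) :=
      contMDiff_pi_space.2 hf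
    have h3 : ContDiff ℝ ∞ (fun y : Fin 4 → ℝ => (WithLp.toLp 2 y : EuclideanSpace ℝ (Fin 4))) :=
      PiLp.contDiff_toLp
    exact h3.contMDiff.comp h2
  exact h1.codRestrict_sphere hm

theorem act3_torus : IsTorusAction 3 2 S3 act3 where
  smooth := by
    refine to_sphere (f := fun q : (Fin 2 → ℝ) × S3 => rot4 q.1 q.2) (fun i => ?_)
      (fun q => rot4_mem q.1 q.2)
    have hc : ∀ j : Fin 2, ContMDiff (𝓘(ℝ, Fin 2 → ℝ).prod (𝓡 3)) 𝓘(ℝ, ℝ) ∞
        (fun q : (Fin 2 → ℝ) × S3 => Real.cos (2 * Real.pi * q.1 j)) := by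
      intro j
      have h2 : ContDiff ℝ ∞ (fun t : Fin 2 → ℝ => Real.cos (2 * Real.pi * t j)) :=
        Real.contDiff_cos.comp (contDiff_const.mul (contDiff_apply ℝ ℝ j))
      exact h2.contMDiff.comp contMDiff_fst
    have hs : ∀ j : Fin 2, ContMDiff (𝓘(ℝ, Fin 2 → ℝ).prod (𝓡 3)) 𝓘(ℝ, ℝ) ∞
        (fun q : (Fin 2 → ℝ) × S3 => Real.sin (2 * Real.pi * q.1 j)) := by
      intro j
      have h2 : ContDiff ℝ ∞ (fun t : Fin 2 → ℝ => Real.sin (2 * Real.pi * t j)) :=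
        Real.contDiff_sin.comp (contDiff_const.mul (contDiff_apply ℝ ℝ j))
      exact h2.contMDiff.comp contMDiff_fst
    fin_cases i
    · exact ((hc 0).mul (coord_smooth 0)).sub ((hs 0).mul (coord_smooth 1))
    · exact ((hs 0).mul (coord_smooth 0)).add ((hc 0).mul (coord_smooth 1))
    · exact ((hc 1).mul (coord_smooth 2)).sub ((hs 1).mul (coord_smooth 3))
    · exact ((hs 1).mul (coord_smooth 2)).add ((hc 1).mul (coord_smooth 3))
  zero x := by
    apply Subtype.ext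
    ext i
    fin_cases i <;> simp [act3, rot4]
  add s t x := by
    apply Subtype.ext
    ext i
    fin_cases i <;> simp [act3, rot4, mul_add, Real.cos_add, Real.sin_add] <;> ring
  int z x := by
    apply Subtype.ext
    have hc : ∀ m : ℤ, Real.cos (2 * Real.pi * m) = 1 := fun m => by
      rw [mul_comm]; exact Real.cos_int_mul_two_pi m
    have hs : ∀ m : ℤ, Real.sin (2 * Real.pi * m) = 0 := fun m => by
      have : 2 * Real.pi * m = ((2 * m : ℤ) : ℝ) * Real.pi := by push_cast; ring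
      rw [this]
      exact Real.sin_int_mul_pi _
    ext i
    fin_cases i <;> simp [act3, rot4, hc, hs]

/-- two points of the plane of the same norm differ by a rotation -/
theorem exists_rot {x y x' y' : ℝ} (h : x ^ 2 + y ^ 2 = x' ^ 2 + y' ^ 2) :
    ∃ t : ℝ, x' = Real.cos (2 * Real.pi * t) * x - Real.sin (2 * Real.pi * t) * y ∧
      y' = Real.sin (2 * Real.pi * t) * x + Real.cos (2 * Real.pi * t) * y := by
  have hpi := Real.pi_pos
  by_cases h0 : x ^ 2 + y ^ 2 = 0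
  · have hx : x = 0 := by nlinarith [sq_nonneg x, sq_nonneg y]
    have hy : y = 0 := by nlinarith [sq_nonneg x, sq_nonneg y]
    have hx' : x' = 0 := by nlinarith [sq_nonneg x', sq_nonneg y']
    have hy' : y' = 0 := by nlinarith [sq_nonneg x', sq_nonneg y']
    exact ⟨0, by simp [hx, hy, hx'], by simp [hx, hy, hy']⟩
  · set c := (x * x' + y * y') / (x ^ 2 + y ^ 2) with hc
    set s := (x * y' - y * x') / (x ^ 2 + y ^ 2) with hs
    have hcs : c ^ 2 + s ^ 2 = 1 := by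
      rw [hc, hs, div_pow, div_pow, ← add_div, div_eq_one_iff_eq (by positivity)]
      have e : (x * x' + y * y') ^ 2 + (x * y' - y * x') ^ 2 =
        (x ^ 2 + y ^ 2) * (x' ^ 2 + y' ^ 2) := by ring
      rw [e, ← h]
      ring
    set w : ℂ := ⟨c, s⟩ with hw
    have hwn : ‖w‖ = 1 := by
      have h1 : ‖w‖ ^ 2 = 1 := by
        rw [Complex.sq_norm, hw, Complex.normSq_mk, ← hcs]
        ring
      have h2 := norm_nonneg w
      nlinarith
    have e1 : Real.cos (2 * Real.pi * (Complex.arg w / (2 * Real.pi))) = c := by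
      rw [mul_div_cancel₀ _ (by positivity)]
      have := Complex.norm_mul_cos_arg w
      rw [hwn, one_mul] at this
      exact this
    have e2 : Real.sin (2 * Real.pi * (Complex.arg w / (2 * Real.pi))) = s := by
      rw [mul_div_cancel₀ _ (by positivity)]
      have := Complex.norm_mul_sin_arg w
      rw [hwn, one_mul] at this
      exact this
    refine ⟨Complex.arg w / (2 * Real.pi), ?_, ?_⟩
    · rw [e1, e2, hc, hs]
      field_simp
      ring
    · rw [e1, e2, hc, hs]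
      field_simp
      ring

theorem second_sin : deriv (deriv fun τ : ℝ => Real.sin τ ^ 2) 0 = 2 := by
  have e : (deriv fun τ : ℝ => Real.sin τ ^ 2) = fun τ => 2 * Real.sin τ * Real.cos τ := by
    funext τ
    rw [((Real.hasDerivAt_sin τ).fun_pow 2).deriv]
    norm_num
  rw [e]
  have h := (((Real.hasDerivAt_sin 0).const_mul 2).mul (Real.hasDerivAt_cos 0))
  have h2 : HasDerivAt (fun τ : ℝ => 2 * Real.sin τ * Real.cos τ)
      (2 * Real.cos 0 * Real.cos 0 + 2 * Real.sin 0 * -Real.sin 0) 0 := h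
  rw [h2.deriv]
  simp

theorem second_cos : deriv (deriv fun τ : ℝ => Real.cos τ ^ 2) 0 = -2 := by
  have e : (fun τ : ℝ => Real.cos τ ^ 2) = fun τ => 1 - Real.sin τ ^ 2 := by
    funext τ
    rw [Real.cos_sq']
  have e2 : (deriv fun τ : ℝ => 1 - Real.sin τ ^ 2) = fun τ => - deriv (fun τ : ℝ => Real.sin τ ^ 2) τ := by
    funext τ
    rw [deriv_const_sub]
  rw [e, e2, deriv.fun_neg, second_sin]

theorem curve_smooth {f : ℝ → EuclideanSpace ℝ (Fin 4)} (hf : ∀ i, ContDiff ℝ ∞ fun τ => f τ i)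
    (hm : ∀ τ, f τ ∈ Metric.sphere (0 : EuclideanSpace ℝ (Fin 4)) 1) :
    ContMDiff 𝓘(ℝ, ℝ) (𝓡 3) ∞ (fun τ => (⟨f τ, hm τ⟩ : S3)) := by
  have h1 : ContDiff ℝ ∞ f := contDiff_euclidean.2 hf
  exact h1.contMDiff.codRestrict_sphere hm

theorem interval3 : IsInterval 3 act3 p3 flow3 where
  p_smooth := by
    have h1 : ContMDiff (𝓡 3) 𝓘(ℝ, EuclideanSpace ℝ (Fin 4)) ∞
        (fun x : S3 => (x : EuclideanSpace ℝ (Fin 4))) := contMDiff_coe_sphere
    have h2 : ∀ i : Fin 4, ContDiff ℝ ∞ (fun x : EuclideanSpace ℝ (Fin 4) => x i) :=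
      fun i => (EuclideanSpace.proj (𝕜 := ℝ) i).contDiff
    have h3 : ContDiff ℝ ∞ (fun x : EuclideanSpace ℝ (Fin 4) => x 0 ^ 2 + x 1 ^ 2) :=
      ((h2 0).pow 2).add ((h2 1).pow 2)
    exact h3.contMDiff.comp h1
  p_mem x := by
    have hx := (mem_S3 x).1 x.2
    constructor
    · unfold p3
      positivity
    · unfold p3
      nlinarith [sq_nonneg ((x : EuclideanSpace ℝ (Fin 4)) 2),
        sq_nonneg ((x : EuclideanSpace ℝ (Fin 4)) 3)]
  p_orbit x y := by
    have hx := (mem_S3 x).1 x.2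
    have hy := (mem_S3 y).1 y.2
    constructor
    · intro h
      unfold p3 at h
      obtain ⟨t, ht1, ht2⟩ := exists_rot h
      have h' : (x : EuclideanSpace ℝ (Fin 4)) 2 ^ 2 + (x : EuclideanSpace ℝ (Fin 4)) 3 ^ 2 =
        (y : EuclideanSpace ℝ (Fin 4)) 2 ^ 2 + (y : EuclideanSpace ℝ (Fin 4)) 3 ^ 2 := by linarith
      obtain ⟨t', ht1', ht2'⟩ := exists_rot h'
      refine ⟨![t, t'], ?_⟩
      apply Subtype.ext
      ext i
      fin_cases i
      · simpa [act3, rot4] using ht1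
      · simpa [act3, rot4] using ht2
      · simpa [act3, rot4] using ht1'
      · simpa [act3, rot4] using ht2'
    · rintro ⟨t, rfl⟩
      have h0 := Real.sin_sq_add_cos_sq (2 * Real.pi * t 0)
      simp only [p3, act3, rot4, PiLp.toLp_apply, Matrix.cons_val]
      linear_combination - ((x : EuclideanSpace ℝ (Fin 4)) 0 ^ 2 +
        (x : EuclideanSpace ℝ (Fin 4)) 1 ^ 2) * h0
  b_smooth := by
    refine to_sphere (f := fun q : ℝ × S3 => fl4 q.1 q.2) (fun i => ?_)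
      (fun q => fl4_mem q.1 q.2)
    have he : ContMDiff (𝓘(ℝ, ℝ).prod (𝓡 3)) 𝓘(ℝ, ℝ) ∞
        (fun q : ℝ × S3 => Real.exp q.1) := Real.contDiff_exp.contMDiff.comp contMDiff_fst
    have he2 : ContMDiff (𝓘(ℝ, ℝ).prod (𝓡 3)) 𝓘(ℝ, ℝ) ∞
        (fun q : ℝ × S3 => Real.exp (q.1 / 2)) :=
      (Real.contDiff_exp.comp (contDiff_id.div_const 2)).contMDiff.comp contMDiff_fst
    have hden : ContMDiff (𝓘(ℝ, ℝ).prod (𝓡 3)) 𝓘(ℝ, ℝ) ∞
        (fun q : ℝ × S3 => den4 q.1 q.2) :=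
      (he.mul (((coord_smooth 0).pow 2).add ((coord_smooth 1).pow 2))).add
        (((coord_smooth 2).pow 2).add ((coord_smooth 3).pow 2))
    have hinv : ContMDiff (𝓘(ℝ, ℝ).prod (𝓡 3)) 𝓘(ℝ, ℝ) ∞
        (fun q : ℝ × S3 => (Real.sqrt (den4 q.1 q.2))⁻¹) := by
      intro q
      have h1 : ContDiffAt ℝ ∞ (fun y : ℝ => (Real.sqrt y)⁻¹) (den4 q.1 q.2) :=
        (Real.contDiffAt_sqrt (den4_pos q.1 q.2).ne').inv
          (Real.sqrt_pos.2 (den4_pos q.1 q.2)).ne'
      exact ContMDiffAt.comp (g := fun y : ℝ => (Real.sqrt y)⁻¹)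
        (f := fun q : ℝ × S3 => den4 q.1 q.2) q h1.contMDiffAt (hden q)
    fin_cases i
    · exact hinv.mul (he2.mul (coord_smooth 0))
    · exact hinv.mul (he2.mul (coord_smooth 1))
    · exact hinv.mul (coord_smooth 2)
    · exact hinv.mul (coord_smooth 3)
  b_zero x := by
    apply Subtype.ext
    have hx := (mem_S3 x).1 x.2
    have h1 : den4 0 x = 1 := by
      unfold den4
      rw [Real.exp_zero]
      linarith
    ext i
    simp only [flow3, fl4, h1]
    fin_cases i <;> simp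
  b_add s t x := by
    apply Subtype.ext
    have hd := den4_pos t x
    have hd2 := den4_pos (s + t) x
    have hs := exp_half s
    have ht := exp_half t
    have h1 : (Real.sqrt (den4 t x))⁻¹ ^ 2 = (den4 t x)⁻¹ := by
      rw [inv_pow, Real.sq_sqrt hd.le]
    have h2 : den4 s (fl4 t x) = den4 (s + t) x / den4 t x := by
      rw [eq_div_iff hd.ne']
      have h4 : (den4 t x)⁻¹ * den4 t x = 1 := inv_mul_cancel₀ hd.ne'
      have h3 : den4 s (fl4 t x) = Real.exp s * (((Real.sqrt (den4 t x))⁻¹ * (Real.exp (t / 2) *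
          (x : EuclideanSpace ℝ (Fin 4)) 0)) ^ 2 + ((Real.sqrt (den4 t x))⁻¹ * (Real.exp (t / 2) *
          (x : EuclideanSpace ℝ (Fin 4)) 1)) ^ 2) + (((Real.sqrt (den4 t x))⁻¹ *
          (x : EuclideanSpace ℝ (Fin 4)) 2) ^ 2 + ((Real.sqrt (den4 t x))⁻¹ *
          (x : EuclideanSpace ℝ (Fin 4)) 3) ^ 2) := by
        simp [den4, fl4]
      rw [h3]
      simp only [mul_pow]
      rw [h1, ht]
      unfold den4 at h4 ⊢
      rw [Real.exp_add]
      linear_combination (Real.exp s * Real.exp t * ((x : EuclideanSpace ℝ (Fin 4)) 0 ^ 2 +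
        (x : EuclideanSpace ℝ (Fin 4)) 1 ^ 2) + ((x : EuclideanSpace ℝ (Fin 4)) 2 ^ 2 +
        (x : EuclideanSpace ℝ (Fin 4)) 3 ^ 2)) * h4
    have h5 : (Real.sqrt (den4 s (fl4 t x)))⁻¹ * (Real.sqrt (den4 t x))⁻¹ =
        (Real.sqrt (den4 (s + t) x))⁻¹ := by
      rw [h2, Real.sqrt_div hd2.le, ← mul_inv, div_mul_cancel₀ _ (Real.sqrt_pos.2 hd).ne']
    have h6 : Real.exp ((s + t) / 2) = Real.exp (s / 2) * Real.exp (t / 2) := by
      rw [← Real.exp_add]
      congr 1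
      ring
    show fl4 (s + t) x = fl4 s (fl4 t x)
    have e1 : fl4 s (fl4 t x) = (Real.sqrt (den4 s (fl4 t x)))⁻¹ •
      !₂[Real.exp (s / 2) * (fl4 t x) 0, Real.exp (s / 2) * (fl4 t x) 1, (fl4 t x) 2,
        (fl4 t x) 3] := rfl
    rw [e1]
    ext i
    unfold fl4 at h5 ⊢
    fin_cases i
    · simp only [PiLp.smul_apply, PiLp.toLp_apply, smul_eq_mul, Matrix.cons_val, Fin.zero_eta]
      rw [← h5, h6]
      ring
    · simp only [PiLp.smul_apply, PiLp.toLp_apply, smul_eq_mul, Matrix.cons_val, Fin.mk_one]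
      rw [← h5, h6]
      ring
    · simp only [PiLp.smul_apply, PiLp.toLp_apply, smul_eq_mul, Matrix.cons_val, Fin.reduceFinMk]
      rw [← h5]
      ring
    · simp only [PiLp.smul_apply, PiLp.toLp_apply, smul_eq_mul, Matrix.cons_val, Fin.reduceFinMk]
      rw [← h5]
      ring
  b_comm s t x := by
    apply Subtype.ext
    have h0 := Real.sin_sq_add_cos_sq (2 * Real.pi * t 0)
    have h1 := Real.sin_sq_add_cos_sq (2 * Real.pi * t 1)
    have hd : den4 s (rot4 t x) = den4 s x := by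
      simp only [den4, rot4, PiLp.toLp_apply, Matrix.cons_val]
      linear_combination Real.exp s * ((x : EuclideanSpace ℝ (Fin 4)) 0 ^ 2 +
        (x : EuclideanSpace ℝ (Fin 4)) 1 ^ 2) * h0 + ((x : EuclideanSpace ℝ (Fin 4)) 2 ^ 2 +
        (x : EuclideanSpace ℝ (Fin 4)) 3 ^ 2) * h1
    show fl4 s (rot4 t x) = rot4 t (fl4 s x)
    have e1 : fl4 s (rot4 t x) = (Real.sqrt (den4 s (rot4 t x)))⁻¹ •
      !₂[Real.exp (s / 2) * (rot4 t x) 0, Real.exp (s / 2) * (rot4 t x) 1, (rot4 t x) 2,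
        (rot4 t x) 3] := rfl
    rw [e1, hd]
    ext i
    fin_cases i <;> simp [fl4, rot4] <;> ring
  b_p s x := by
    have hx := (mem_S3 x).1 x.2
    have hd := den4_pos s x
    have h1 : (Real.sqrt (den4 s x))⁻¹ ^ 2 = (den4 s x)⁻¹ := by
      rw [inv_pow, Real.sq_sqrt hd.le]
    have h2 : den4 s x = 1 - p3 x + Real.exp s * p3 x := by
      unfold den4 p3
      linarith
    have h3 : p3 (flow3 s x) = ((Real.sqrt (den4 s x))⁻¹ * (Real.exp (s / 2) *
          (x : EuclideanSpace ℝ (Fin 4)) 0)) ^ 2 + ((Real.sqrt (den4 s x))⁻¹ * (Real.exp (s / 2) *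
          (x : EuclideanSpace ℝ (Fin 4)) 1)) ^ 2 := by
      simp [p3, flow3, fl4]
    rw [h3, ← h2]
    simp only [mul_pow]
    rw [h1, exp_half]
    unfold p3
    field_simp
  hess0 := by
    refine ⟨fun τ => ⟨!₂[Real.sin τ, 0, Real.cos τ, 0], ?_⟩, ?_, ?_, ?_⟩
    · rw [mem_S3]
      have := Real.sin_sq_add_cos_sq τ
      simp only [PiLp.toLp_apply, Matrix.cons_val]
      linarith
    · refine curve_smooth (f := fun τ => !₂[Real.sin τ, 0, Real.cos τ, 0]) (fun i => ?_) _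
      fin_cases i
      · exact Real.contDiff_sin
      · exact contDiff_const
      · exact Real.contDiff_cos
      · exact contDiff_const
    · simp [p3]
    · have e : (fun τ : ℝ => p3 ⟨!₂[Real.sin τ, 0, Real.cos τ, 0], by
          rw [mem_S3]
          have := Real.sin_sq_add_cos_sq τ
          simp only [PiLp.toLp_apply, Matrix.cons_val]
          linarith⟩) = fun τ => Real.sin τ ^ 2 := by
        funext τ
        simp [p3]
      show deriv (deriv fun τ : ℝ => p3 ⟨!₂[Real.sin τ, 0, Real.cos τ, 0], _⟩) 0 ≠ 0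
      rw [e, second_sin]
      norm_num
  hess1 := by
    refine ⟨fun τ => ⟨!₂[Real.cos τ, 0, Real.sin τ, 0], ?_⟩, ?_, ?_, ?_⟩
    · rw [mem_S3]
      have := Real.sin_sq_add_cos_sq τ
      simp only [PiLp.toLp_apply, Matrix.cons_val]
      linarith
    · refine curve_smooth (f := fun τ => !₂[Real.cos τ, 0, Real.sin τ, 0]) (fun i => ?_) _
      fin_cases i
      · exact Real.contDiff_cos
      · exact contDiff_const
      · exact Real.contDiff_sin
      · exact contDiff_const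
    · simp [p3]
    · have e : (fun τ : ℝ => p3 ⟨!₂[Real.cos τ, 0, Real.sin τ, 0], by
          rw [mem_S3]
          have := Real.sin_sq_add_cos_sq τ
          simp only [PiLp.toLp_apply, Matrix.cons_val]
          linarith⟩) = fun τ => Real.cos τ ^ 2 := by
        funext τ
        simp [p3]
      show deriv (deriv fun τ : ℝ => p3 ⟨!₂[Real.cos τ, 0, Real.sin τ, 0], _⟩) 0 ≠ 0
      rw [e, second_cos]
      norm_num

end Pool.Agent.W5h32.CO
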