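import Pool.Agent.Y318.MN.Push

/-!
# Second order behaviour of a function along a curve at a minimum
-/

set_option autoImplicit false
set_option linter.unusedSectionVars false

open scoped Manifold ContDiff Topology
open Filter Set Metric

universe u

namespace Pool.Agent.W5h32.CO

open Pool.Agent.H718R2.G Pool.Agent.Y318.MN

section norm

variable {E : Type*} [NormedAddCommGroup E] [NormedSpace ℝ E]

/-- Taylor's formula of order two at a critical zero. -/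
theorem taylor_two {q : E → ℝ} {y : E} (hq : ContDiffAt ℝ 2 q y) (h0 : q y = 0)
    (h1 : fderiv ℝ q y = 0) {ε : ℝ} (hε : 0 < ε) :
    ∀ᶠ z in 𝓝 y, |q z - 1 / 2 * fderiv ℝ (fderiv ℝ q) y (z - y) (z - y)| ≤ ε * ‖z - y‖ ^ 2 := by
  have hd1 : ContDiffAt ℝ 1 (fderiv ℝ q) y := hq.fderiv_right (by norm_num)
  have hd2 : HasFDerivAt (fderiv ℝ q) (fderiv ℝ (fderiv ℝ q) y) y :=
    (hd1.differentiableAt (by norm_num)).hasFDerivAt
  have hb := (hd2.isLittleO.bound hε)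
  have hdiff : ∀ᶠ z in 𝓝 y, DifferentiableAt ℝ q z := by
    filter_upwards [hq.eventually (by simp)] with z hz
    exact hz.differentiableAt (by norm_num)
  obtain ⟨δ, hδ, hδ1⟩ := Metric.eventually_nhds_iff_ball.1 (hb.and hdiff)
  filter_upwards [ball_mem_nhds y hδ] with z hz
  set B := fderiv ℝ (fderiv ℝ q) y with hB
  set v := z - y with hv
  have hmem : ∀ t ∈ Icc (0 : ℝ) 1, y + t • v ∈ ball y δ := by
    intro t ht
    rw [mem_ball, dist_eq_norm, add_sub_cancel_left, norm_smul, Real.norm_of_nonneg ht.1]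
    rw [mem_ball, dist_eq_norm] at hz
    have : t * ‖v‖ ≤ 1 * ‖v‖ := mul_le_mul_of_nonneg_right ht.2 (norm_nonneg _)
    linarith
  have hder : ∀ t ∈ Icc (0 : ℝ) 1, HasDerivWithinAt
      (fun t : ℝ => q (y + t • v) - 1 / 2 * (t ^ 2 * B v v))
      (fderiv ℝ q (y + t • v) v - t * B v v) (Icc (0 : ℝ) 1) t := by
    intro t ht
    have h2 : HasFDerivAt q (fderiv ℝ q (y + t • v)) (y + t • v) :=
      ((hδ1 _ (hmem t ht)).2).hasFDerivAt
    have h3 : HasDerivAt (fun t : ℝ => y + t • v) v t := by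
      simpa using ((hasDerivAt_id t).smul_const v).const_add y
    have h4 := h2.comp_hasDerivAt t h3
    have h5 : HasDerivAt (fun t : ℝ => 1 / 2 * (t ^ 2 * B v v)) (t * B v v) t := by
      refine (((hasDerivAt_pow 2 t).mul_const (B v v)).const_mul (1 / 2 : ℝ)).congr_deriv ?_
      norm_num
      ring
    exact (h4.sub h5).hasDerivWithinAt
  have hbd : ∀ t ∈ Ico (0 : ℝ) 1, ‖fderiv ℝ q (y + t • v) v - t * B v v‖ ≤ ε * ‖v‖ ^ 2 := by
    intro t ht
    have ht' : t ∈ Icc (0 : ℝ) 1 := ⟨ht.1, ht.2.le⟩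
    have h2 := (hδ1 _ (hmem t ht')).1
    rw [h1, sub_zero, add_sub_cancel_left] at h2
    have e : fderiv ℝ q (y + t • v) v - t * B v v = (fderiv ℝ q (y + t • v) - B (t • v)) v := by
      simp [sub_apply, map_smul, smul_eq_mul]
    rw [e]
    refine (ContinuousLinearMap.le_opNorm _ _).trans ?_
    have h3 : ‖t • v‖ ≤ ‖v‖ := by
      rw [norm_smul, Real.norm_of_nonneg ht.1]
      nlinarith [norm_nonneg v, ht.2]
    calc ‖fderiv ℝ q (y + t • v) - B (t • v)‖ * ‖v‖ ≤ (ε * ‖t • v‖) * ‖v‖ :=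
          mul_le_mul_of_nonneg_right h2 (norm_nonneg _)
      _ ≤ (ε * ‖v‖) * ‖v‖ := by gcongr
      _ = ε * ‖v‖ ^ 2 := by ring
  have key := norm_image_sub_le_of_norm_deriv_le_segment_01' hder hbd
  simp only [one_smul, zero_smul, add_zero, h0, one_pow, one_mul] at key
  have e1 : y + v = z := by rw [hv]; abel
  rw [e1] at key
  simpa using key

/-- along a differentiable curve -/
theorem quad_curve {q : E → ℝ} {c : ℝ → E} {w : E} (hc : HasDerivAt c w 0)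
    (hq : ContDiffAt ℝ 2 q (c 0)) (h0 : q (c 0) = 0) (h1 : fderiv ℝ q (c 0) = 0) :
    Tendsto (fun τ : ℝ => q (c τ) / τ ^ 2) (𝓝[≠] 0)
      (𝓝 (1 / 2 * fderiv ℝ (fderiv ℝ q) (c 0) w w)) := by
  set B := fderiv ℝ (fderiv ℝ q) (c 0) with hB
  have hs : Tendsto (fun τ : ℝ => τ⁻¹ • (c τ - c 0)) (𝓝[≠] 0) (𝓝 w) := by
    have := hasDerivAt_iff_tendsto_slope.1 hc
    refine this.congr fun τ => ?_
    rw [slope_def_module, sub_zero]
  have hlim : Tendsto (fun τ : ℝ => 1 / 2 * B (τ⁻¹ • (c τ - c 0)) (τ⁻¹ • (c τ - c 0))) (𝓝[≠] 0)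
      (𝓝 (1 / 2 * B w w)) := by
    have hcont : Continuous fun x : E => 1 / 2 * B x x := by fun_prop
    exact (hcont.tendsto w).comp hs
  have hdiff : Tendsto (fun τ : ℝ => q (c τ) / τ ^ 2 -
      1 / 2 * B (τ⁻¹ • (c τ - c 0)) (τ⁻¹ • (c τ - c 0))) (𝓝[≠] 0) (𝓝 0) := by
    rw [Metric.tendsto_nhds]
    intro ε hε
    have hn : ∀ᶠ τ : ℝ in 𝓝[≠] 0, ‖τ⁻¹ • (c τ - c 0)‖ < ‖w‖ + 1 :=
      hs.norm.eventually_lt_const (by linarith)
    have hε' : 0 < ε / (2 * (‖w‖ + 1) ^ 2) := by positivity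
    have hT := (hc.continuousAt.tendsto.mono_left (nhdsWithin_le_nhds (s := {0}ᶜ))).eventually
      (taylor_two hq h0 h1 hε')
    filter_upwards [hn, hT, self_mem_nhdsWithin] with τ h2 h3 h4
    have hτ : τ ≠ 0 := h4
    have hτ2 : 0 < τ ^ 2 := by positivity
    rw [dist_zero_right, Real.norm_eq_abs]
    have e1 : q (c τ) / τ ^ 2 - 1 / 2 * B (τ⁻¹ • (c τ - c 0)) (τ⁻¹ • (c τ - c 0)) =
        (q (c τ) - 1 / 2 * B (c τ - c 0) (c τ - c 0)) / τ ^ 2 := by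
      have e3 : B (τ⁻¹ • (c τ - c 0)) (τ⁻¹ • (c τ - c 0)) =
          τ⁻¹ * (τ⁻¹ * B (c τ - c 0) (c τ - c 0)) := by
        simp [map_smul, smul_eq_mul]
      rw [e3]
      field_simp
    rw [e1, abs_div, abs_of_pos hτ2, div_lt_iff₀ hτ2]
    have e2 : ‖c τ - c 0‖ = |τ| * ‖τ⁻¹ • (c τ - c 0)‖ := by
      rw [norm_smul, norm_inv, Real.norm_eq_abs]
      have : |τ| ≠ 0 := abs_ne_zero.2 hτ
      field_simp
    have h5 : ‖c τ - c 0‖ ^ 2 ≤ τ ^ 2 * (‖w‖ + 1) ^ 2 := by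
      rw [e2, mul_pow, sq_abs]
      gcongr
    calc _ ≤ ε / (2 * (‖w‖ + 1) ^ 2) * ‖c τ - c 0‖ ^ 2 := h3
      _ ≤ ε / (2 * (‖w‖ + 1) ^ 2) * (τ ^ 2 * (‖w‖ + 1) ^ 2) := by gcongr
      _ = ε / 2 * τ ^ 2 := by field_simp
      _ < ε * τ ^ 2 := by
        have : 0 < ε * τ ^ 2 := by positivity
        linarith
  have := hdiff.add hlim
  simpa using this

end norm

section mfd

variable {n : ℕ} {N : Type u} [TopologicalSpace N] [T2Space N] [ChartedSpace (V n) N]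
  [IsManifold (𝓡 n) ∞ N]

/-- A smooth nonnegative function has a second order limit along a `C¹` curve which starts at a
zero. -/
theorem quad_limit {p : N → ℝ} (hp : ContMDiff (𝓡 n) 𝓘(ℝ, ℝ) ∞ p) (hp0 : ∀ x, 0 ≤ p x)
    {c : ℝ → N} (hc : ContMDiffAt 𝓘(ℝ, ℝ) (𝓡 n) 1 c 0) (h0 : p (c 0) = 0) :
    ∃ κ : ℝ, Tendsto (fun τ : ℝ => p (c τ) / τ ^ 2) (𝓝[≠] 0) (𝓝 κ) := by
  set φ := chartAt (V n) (c 0) with hφ
  have hφm : φ ∈ IsManifold.maximalAtlas (𝓡 n) ∞ N := IsManifold.chart_mem_maximalAtlas _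
  have hsrc : c 0 ∈ φ.source := mem_chart_source _ _
  have hq : ContDiffAt ℝ ∞ (fun w => p (φ.symm w)) (φ (c 0)) := chart_cd hp hφm (φ.map_source hsrc)
  have hc1 : ContMDiffAt 𝓘(ℝ, ℝ) (𝓡 n) 1 (fun τ => φ (c τ)) 0 := by
    have h1 : ContMDiffAt (𝓡 n) (𝓡 n) 1 φ (c 0) :=
      ((contMDiffOn_of_mem_maximalAtlas hφm _ hsrc).contMDiffAt
        (φ.open_source.mem_nhds hsrc)).of_le (by exact_mod_cast le_top)
    exact h1.comp 0 hc
  have hc2 : HasDerivAt (fun τ => φ (c τ)) (deriv (fun τ => φ (c τ)) 0) 0 := by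
    have h1 : ContDiffAt ℝ 1 (fun τ => φ (c τ)) 0 := contMDiffAt_iff_contDiffAt.1 hc1
    exact (h1.differentiableAt (by norm_num)).hasDerivAt
  have h1 : p (φ.symm (φ (c 0))) = 0 := by rw [φ.left_inv hsrc, h0]
  have hmin : IsLocalMin (fun w => p (φ.symm w)) (φ (c 0)) := by
    refine Filter.Eventually.of_forall fun w => ?_
    show p (φ.symm (φ (c 0))) ≤ p (φ.symm w)
    rw [h1]
    exact hp0 _
  have h2 := quad_curve (q := fun w => p (φ.symm w)) hc2 (hq.of_le ENat.LEInfty.out) h1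
    hmin.fderiv_eq_zero
  refine ⟨_, h2.congr' ?_⟩
  have h3 : ∀ᶠ τ in 𝓝 (0 : ℝ), c τ ∈ φ.source :=
    hc.continuousAt.eventually_mem (φ.open_source.mem_nhds hsrc)
  filter_upwards [h3.filter_mono nhdsWithin_le_nhds] with τ hτ
  rw [φ.left_inv hτ]

/-- the second derivative along a smooth curve -/
theorem quad_value {u : ℝ → ℝ} (hu : ContDiff ℝ ∞ u) (h0 : u 0 = 0) (hu0 : ∀ τ, 0 ≤ u τ) {κ : ℝ}
    (hκ : Tendsto (fun τ : ℝ => u τ / τ ^ 2) (𝓝[≠] 0) (𝓝 κ)) : κ = 1 / 2 * deriv (deriv u) 0 := by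
  have hmin : IsLocalMin u 0 := by
    refine Filter.Eventually.of_forall fun w => ?_
    rw [h0]
    exact hu0 _
  have h2 := quad_curve (q := u) (c := fun τ => τ) (hasDerivAt_id (0 : ℝ))
    (hu.contDiffAt.of_le ENat.LEInfty.out) h0 hmin.fderiv_eq_zero
  have h3 := tendsto_nhds_unique hκ h2
  rw [h3]
  congr 1
  have hd : DifferentiableAt ℝ (fderiv ℝ u) 0 :=
    (hu.fderiv_right (m := 1) (by norm_num; exact ENat.LEInfty.out)).differentiable (by norm_num) _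
  have e : deriv u = fun τ => fderiv ℝ u τ 1 := by
    funext τ
    exact (fderiv_apply_one_eq_deriv).symm
  rw [e]
  have h4 : HasFDerivAt (fun τ => fderiv ℝ u τ 1) ((fderiv ℝ (fderiv ℝ u) 0).flip 1) 0 := by
    have := hd.hasFDerivAt.clm_apply (hasFDerivAt_const (1 : ℝ) (0 : ℝ))
    simpa using this
  rw [← fderiv_apply_one_eq_deriv, h4.fderiv]
  rfl

end mfd

end Pool.Agent.W5h32.CO
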